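import Mathlib
import Pool.Agent.W2helper83.FP.Data

/-!
Certificates which exclude cycles of length `6`, if the denominator of `c` has at most `5` prime
factors and is not divisible by `17`.
-/

set_option autoImplicit false

namespace Pool.Agent.W2helper83.FP

/-- certificates for cycles of length `6` modulo `17` -/
def E6x17 : List (ℕ × ℕ × List (ℕ × List ℕ)) :=
 [(1, 2, [(99973851, [3, 1, 6, 1, 7, 7, 5, 2, 3, 5, 7, 0, 5, 5, 5]),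
  (124180866, [2, 0, 7, 6, 6, 0, 2, 1, 0, 4, 0, 7, 0, 0, 6]),
  (16470485, [0, 1, 2, 3, 0, 2, 1, 2, 3, 6, 1, 0, 6, 7, 0]),
  (134034804, [0, 0, 7, 2, 6, 0, 2, 3, 6, 2, 6, 1, 0, 0, 4]),
  (114119269, [1, 5, 3, 0, 7, 7, 7, 3, 4, 5, 0, 0, 4, 3, 0]),
  (80714969, [6, 2, 0, 0, 4, 2, 6, 2, 6, 6, 4, 0, 0, 0, 4]),
  (132553930, [6, 4, 4, 2, 2, 0, 2, 2, 0, 0, 0, 0, 0, 0, 2]),
  (79494014, [0, 6, 1, 0, 6, 4, 6, 1, 4, 6, 2, 1, 4, 0, 0]),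
  (90698159, [4, 1, 0, 5, 0, 4, 7, 4, 5, 0, 3, 0, 0, 5, 4]),
  (79116408, [5, 4, 4, 6, 3, 5, 2, 4, 0, 1, 0, 0, 7, 0, 3]),
  (111428536, [1, 1, 0, 0, 0, 7, 6, 3, 4, 1, 0, 5, 0, 5, 0]),
  (107433593, [7, 6, 4, 2, 3, 7, 2, 0, 2, 1, 4, 0, 1, 0, 7]),
  (53461186, [2, 5, 4, 4, 6, 7, 0, 0, 6, 7, 7, 1, 5, 5, 0]),
  (125658614, [3, 0, 0, 4, 7, 5, 0, 4, 0, 1, 0, 4, 7, 4, 7]),
  (39579263, [0, 5, 0, 1, 2, 0, 5, 4, 1, 0, 1, 4, 4, 1, 6]),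
  (66174060, [0, 1, 0, 3, 6, 0, 7, 0, 7, 6, 3, 2, 4, 5, 0]),
  (21219148, [0, 4, 5, 5, 2, 3, 3, 2, 0, 3, 2, 5, 1, 2, 0]),
  (129457612, [4, 6, 0, 4, 4, 2, 0, 6, 2, 6, 6, 0, 2, 6, 0]),
  (83090885, [1, 1, 4, 7, 5, 7, 7, 2, 1, 3, 5, 0, 7, 5, 1]),
  (112439100, [4, 1, 2, 7, 6, 0, 7, 6, 3, 2, 3, 0, 0, 1, 0])])]

theorem conf6x17 : confOK 17 6 pr6 E6x17 = true := by decide +kernel

theorem cert6x17 : certsOK 17 8 27 15 pr6 tb6 mk6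
    T1x6 T2x6 5 E6x17 = true := by
  decide +kernel

end Pool.Agent.W2helper83.FP
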