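import Mathlib

/-!
Orbits of `z ^ 2 + C` over the `p`-adic integers: a residue disc which is mapped to itself with
multiplier one modulo `p` contains no cycles of length greater than one (`p ≥ 5`, or `p = 3` and
smaller discs).
-/

set_option autoImplicit false

namespace Pool.Agent.W2helper83.FP

open Finset

section taylor

variable {R : Type*} [CommRing R] {C : R} {X : ℕ → R}

/-- second order expansion of the iterates -/
theorem taylor (hX : ∀ i, X (i + 1) = X i ^ 2 + C) (m : ℕ) : ∃ b : R, ∀ z : R, ∃ r : R,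
    (fun y : R => y ^ 2 + C)^[m] (X 0 + z) =
      X m + (∏ t ∈ range m, (2 * X t)) * z + b * z ^ 2 + r * z ^ 3 := by
  induction m with
  | zero => exact ⟨0, fun z => ⟨0, by simp⟩⟩
  | succ m ih =>
    obtain ⟨b, hb⟩ := ih
    refine ⟨2 * X m * b + (∏ t ∈ range m, (2 * X t)) ^ 2, fun z => ?_⟩
    obtain ⟨r, hr⟩ := hb z
    refine ⟨2 * X m * r + 2 * (∏ t ∈ range m, (2 * X t)) * b +
      z * (2 * (∏ t ∈ range m, (2 * X t)) * r + b ^ 2) + z ^ 2 * (2 * b * r) + z ^ 3 * r ^ 2, ?_⟩
    rw [Function.iterate_succ_apply', hr, Finset.prod_range_succ, hX m]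
    ring

theorem orbit_iterate (hX : ∀ i, X (i + 1) = X i ^ 2 + C) (m i : ℕ) :
    X (i + m) = (fun y : R => y ^ 2 + C)^[m] (X i) := by
  induction m with
  | zero => rfl
  | succ m ih => rw [← Nat.add_assoc, hX, Function.iterate_succ_apply', ih]

/-- the normalized differences along the times `j m` -/
theorem exists_w (hX : ∀ i, X (i + 1) = X i ^ 2 + C) (m : ℕ) : ∃ (b : R) (w r : ℕ → R), w 0 = 0 ∧
    (∀ j, X (j * m) = X 0 + (X m - X 0) * w j) ∧
    ∀ j, w (j + 1) = 1 + (∏ t ∈ range m, (2 * X t)) * w j + b * (X m - X 0) * w j ^ 2 +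
      (X m - X 0) ^ 2 * r j * w j ^ 3 := by
  obtain ⟨b, hb⟩ := taylor hX m
  choose r hr using hb
  set d := X m - X 0 with hd
  set lam := ∏ t ∈ range m, (2 * X t) with hlam
  let w : ℕ → R := fun j => Nat.rec (motive := fun _ => R) 0
    (fun _ y => 1 + lam * y + b * d * y ^ 2 + d ^ 2 * r (d * y) * y ^ 3) j
  have hw : ∀ j, w (j + 1) = 1 + lam * w j + b * d * w j ^ 2 + d ^ 2 * r (d * w j) * w j ^ 3 :=
    fun j => rfl
  refine ⟨b, w, fun j => r (d * w j), rfl, ?_, hw⟩
  intro j
  induction j with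
  | zero => simp [w]
  | succ j ih =>
    rw [Nat.succ_mul, orbit_iterate hX, ih, hr, hw]
    linear_combination (-1 : R) * hd

end taylor

section padic

variable {p : ℕ} [hp : Fact p.Prime] {C : ℤ_[p]} {X : ℕ → ℤ_[p]}

theorem natCast_dvd (k : ℕ) : (p : ℤ_[p]) ∣ (k : ℤ_[p]) ↔ p ∣ k := by
  have h1 := PadicInt.norm_int_lt_one_iff_dvd (p := p) (k : ℤ)
  rw [Int.natCast_dvd_natCast] at h1
  rw [← h1]
  push_cast
  rw [PadicInt.norm_lt_one_iff_dvd]

theorem not_sq_dvd_p : ¬ (p : ℤ_[p]) ^ 2 ∣ (p : ℤ_[p]) := by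
  intro h
  obtain ⟨t, ht⟩ := h
  have hp0 : (p : ℤ_[p]) ≠ 0 := PadicInt.prime_p.ne_zero
  have h1 : (p : ℤ_[p]) * (p * t) = p * 1 := by linear_combination - ht
  have h2 := mul_left_cancel₀ hp0 h1
  exact PadicInt.prime_p.not_isUnit (IsUnit.of_mul_eq_one _ h2)

theorem sum_id (j : ℕ) : 2 * ∑ i ∈ range j, (i : ℤ_[p]) = j * (j - 1) := by
  induction j with
  | zero => simp
  | succ j ih => rw [Finset.sum_range_succ, mul_add, ih]; push_cast; ring

theorem sum_sq (j : ℕ) : 6 * ∑ i ∈ range j, (i : ℤ_[p]) ^ 2 = j * (j - 1) * (2 * j - 1) := by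
  induction j with
  | zero => simp
  | succ j ih => rw [Finset.sum_range_succ, mul_add, ih]; push_cast; ring

/-- **No return.** -/
theorem no_return (hX : ∀ i, X (i + 1) = X i ^ 2 + C) (hp2 : p ≠ 2) :
    ∀ (k m : ℕ), 1 ≤ k → X m ≠ X 0 → (p : ℤ_[p]) ∣ X m - X 0 →
      (p = 3 → (p : ℤ_[p]) ^ 2 ∣ X m - X 0) →
      (p : ℤ_[p]) ∣ (∏ t ∈ range m, (2 * X t)) - 1 → X (k * m) ≠ X 0 := by
  intro k
  induction k using Nat.strong_induction_on with
  | _ k ih =>
  intro m hk hne hd h3 hlam heq
  obtain ⟨b, w, r, hw0, hwX, hws⟩ := exists_w hX m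
  set d := X m - X 0 with hdd
  set lam := ∏ t ∈ range m, (2 * X t) with hlamd
  have hd0 : d ≠ 0 := sub_ne_zero.mpr hne
  have hwk : w k = 0 := by
    have h1 := hwX k
    rw [heq] at h1
    have h2 : d * w k = 0 := by linear_combination - h1
    exact (mul_eq_zero.mp h2).resolve_left hd0
  obtain ⟨a, ha⟩ := hlam
  obtain ⟨dh, hdh⟩ := hd
  have hmod : ∀ j, (p : ℤ_[p]) ∣ w j - j := by
    intro j
    induction j with
    | zero => simp [hw0]
    | succ j ihj =>
      obtain ⟨u, hu⟩ := ihj
      refine ⟨u + a * w j + b * dh * w j ^ 2 + dh * d * r j * w j ^ 3, ?_⟩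
      rw [hws j]
      push_cast
      have e1 : lam = 1 + p * a := by linear_combination ha
      rw [e1]
      linear_combination hu + (b * w j ^ 2 + d * r j * w j ^ 3) * hdh
  by_cases hpk : p ∣ k
  · obtain ⟨k', rfl⟩ := hpk
    have hk' : 1 ≤ k' := by
      rcases Nat.eq_zero_or_pos k' with h | h
      · subst h; omega
      · exact h
    have hlt : k' < p * k' := by
      have := hp.out.two_le
      nlinarith
    -- the multiplier of the `p`-fold iterate
    have hper : ∀ t, (p : ℤ_[p]) ∣ X (t + m) - X t := by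
      intro t
      induction t with
      | zero => rw [Nat.zero_add]; exact ⟨dh, hdh⟩
      | succ t iht =>
        rw [show t + 1 + m = t + m + 1 by ring, hX, hX]
        have : X (t + m) ^ 2 + C - (X t ^ 2 + C) = (X (t + m) - X t) * (X (t + m) + X t) := by ring
        rw [this]
        exact Dvd.dvd.mul_right iht _
    have hper2 : ∀ q t, (p : ℤ_[p]) ∣ X (t + q * m) - X t := by
      intro q t
      induction q with
      | zero => simp
      | succ q ihq =>
        have := hper (t + q * m)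
        rw [show t + (q + 1) * m = t + q * m + m by ring]
        have e : X (t + q * m + m) - X t = (X (t + q * m + m) - X (t + q * m)) +
          (X (t + q * m) - X t) := by ring
        rw [e]
        exact dvd_add this ihq
    have hlamq : ∀ q, (p : ℤ_[p]) ∣ (∏ t ∈ range (q * m), (2 * X t)) - 1 := by
      intro q
      induction q with
      | zero => simp
      | succ q ihq =>
        rw [Nat.succ_mul, Finset.prod_range_add]
        have h1 : (p : ℤ_[p]) ∣ (∏ x ∈ range m, (2 * X (q * m + x))) - lam := by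
          have : ∀ s, (p : ℤ_[p]) ∣ (∏ x ∈ range s, (2 * X (q * m + x))) -
              ∏ x ∈ range s, (2 * X x) := by
            intro s
            induction s with
            | zero => simp
            | succ s ihs =>
              rw [Finset.prod_range_succ, Finset.prod_range_succ]
              obtain ⟨u, hu⟩ := ihs
              obtain ⟨u', hu'⟩ := hper2 q s
              rw [Nat.add_comm s (q * m)] at hu'
              refine ⟨u * (2 * X (q * m + s)) + (∏ x ∈ range s, (2 * X x)) * (2 * u'), ?_⟩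
              linear_combination (2 * X (q * m + s)) * hu +
                (2 * ∏ x ∈ range s, (2 * X x)) * hu'
          exact this m
        obtain ⟨u, hu⟩ := h1
        obtain ⟨u', hu'⟩ := ihq
        refine ⟨u * (∏ t ∈ range (q * m), (2 * X t)) + a * (∏ t ∈ range (q * m), (2 * X t)) + u', ?_⟩
        linear_combination (∏ t ∈ range (q * m), (2 * X t)) * hu +
          (∏ t ∈ range (q * m), (2 * X t)) * ha + hu'
    -- `w p` is `p` modulo `p ^ 2`
    have hS : ∀ j, (p : ℤ_[p]) ^ 2 ∣ w j - j - p * (a * (∑ i ∈ range j, (i : ℤ_[p])) +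
        b * dh * ∑ i ∈ range j, (i : ℤ_[p]) ^ 2) := by
      intro j
      induction j with
      | zero => simp [hw0]
      | succ j ihj =>
        obtain ⟨u, hu⟩ := ihj
        obtain ⟨e, he⟩ := hmod j
        have e1 : lam = 1 + p * a := by linear_combination ha
        refine ⟨u + a * e + b * dh * e * (w j + j) + dh ^ 2 * r j * w j ^ 3, ?_⟩
        rw [hws j, Finset.sum_range_succ, Finset.sum_range_succ, e1]
        push_cast
        have hdsq : d ^ 2 = (p : ℤ_[p]) ^ 2 * dh ^ 2 := by rw [hdh]; ring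
        rw [hdsq, hdh]
        linear_combination hu + (p * a + p * b * dh * (w j + j)) * he
    have hwp : (p : ℤ_[p]) ^ 2 ∣ w p - p := by
      obtain ⟨u, hu⟩ := hS p
      have h2 : IsUnit (2 : ℤ_[p]) := by
        rw [PadicInt.isUnit_iff]
        have h1 := PadicInt.norm_int_lt_one_iff_dvd (p := p) (2 : ℤ)
        have h4 : ¬ ((p : ℤ) ∣ 2) := by
          intro h
          have h5 : p ∣ 2 := by exact_mod_cast h
          exact hp2 ((Nat.prime_dvd_prime_iff_eq hp.out Nat.prime_two).mp h5)
        have h6 : ¬ ‖((2 : ℤ) : ℤ_[p])‖ < 1 := fun h => h4 (h1.mp h)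
        push_cast at h6
        exact le_antisymm (PadicInt.norm_le_one _) (not_lt.mp h6)
      have hA : (p : ℤ_[p]) ∣ ∑ i ∈ range p, (i : ℤ_[p]) := by
        have := sum_id (p := p) p
        have h7 : (p : ℤ_[p]) ∣ 2 * ∑ i ∈ range p, (i : ℤ_[p]) := ⟨_, this⟩
        exact (h2.dvd_mul_left).mp h7
      have hB : (p : ℤ_[p]) ∣ dh * ∑ i ∈ range p, (i : ℤ_[p]) ^ 2 := by
        by_cases hp3 : p = 3
        · obtain ⟨v, hv⟩ := h3 hp3
          have hp0 : (p : ℤ_[p]) ≠ 0 := PadicInt.prime_p.ne_zero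
          have : dh = p * v := by
            apply mul_left_cancel₀ hp0
            linear_combination hv - hdh
          rw [this]
          exact ⟨v * ∑ i ∈ range p, (i : ℤ_[p]) ^ 2, by ring⟩
        · have h3u : IsUnit (3 : ℤ_[p]) := by
            rw [PadicInt.isUnit_iff]
            have h1 := PadicInt.norm_int_lt_one_iff_dvd (p := p) (3 : ℤ)
            have h4 : ¬ ((p : ℤ) ∣ 3) := by
              intro h
              have h5 : p ∣ 3 := by exact_mod_cast h
              exact hp3 ((Nat.prime_dvd_prime_iff_eq hp.out Nat.prime_three).mp h5)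
            have h6 : ¬ ‖((3 : ℤ) : ℤ_[p])‖ < 1 := fun h => h4 (h1.mp h)
            push_cast at h6
            exact le_antisymm (PadicInt.norm_le_one _) (not_lt.mp h6)
          have h6u : IsUnit (6 : ℤ_[p]) := by
            have : (6 : ℤ_[p]) = 2 * 3 := by norm_num
            rw [this]
            exact h2.mul h3u
          have := sum_sq (p := p) p
          have h7 : (p : ℤ_[p]) ∣ 6 * ∑ i ∈ range p, (i : ℤ_[p]) ^ 2 :=
            ⟨(p - 1) * (2 * p - 1), by rw [this]; ring⟩
          exact Dvd.dvd.mul_left ((h6u.dvd_mul_left).mp h7) _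
      obtain ⟨sA, hsA⟩ := hA
      obtain ⟨sB, hsB⟩ := hB
      refine ⟨u + a * sA + b * sB, ?_⟩
      linear_combination hu + p * a * hsA + p * b * hsB
    have hwp0 : w p ≠ 0 := by
      intro h
      rw [h] at hwp
      have : (p : ℤ_[p]) ^ 2 ∣ p := by
        obtain ⟨u, hu⟩ := hwp
        exact ⟨-u, by linear_combination - hu⟩
      exact not_sq_dvd_p this
    have hwpd : (p : ℤ_[p]) ∣ w p := by
      have := hmod p
      obtain ⟨u, hu⟩ := this
      exact ⟨u + 1, by linear_combination hu⟩
    have hXp : X (p * m) - X 0 = d * w p := by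
      rw [hwX p]; ring
    refine ih k' hlt (p * m) hk' ?_ ?_ ?_ ?_ ?_
    · intro h
      rw [h, sub_self] at hXp
      exact (mul_ne_zero hd0 hwp0) hXp.symm
    · rw [hXp]
      exact Dvd.dvd.mul_left hwpd _
    · intro hp3
      rw [hXp]
      exact Dvd.dvd.mul_right (h3 hp3) _
    · exact hlamq p
    · rw [show k' * (p * m) = p * k' * m by ring]
      exact heq
  · have h1 := hmod k
    rw [hwk, zero_sub, dvd_neg] at h1
    exact hpk ((natCast_dvd k).mp h1)

end padic

end Pool.Agent.W2helper83.FP
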