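import Mathlib
import Pool.Agent.W2helper83.FP.LemE
import Pool.Agent.Results.MP_7564fc_nt.FewLongCycles

/-!
Rational cycles of `x ^ 2 + c` at the primes of good reduction.
-/

set_option autoImplicit false

namespace Pool.Agent.W2helper83.FP

open Finset

/-- a rational cycle of `x ^ 2 + c` of exact length `n ≥ 3` -/
structure Cy (c : ℚ) (x : ℕ → ℚ) (n : ℕ) : Prop where
  hn : 3 ≤ n
  step : ∀ i, x (i + 1) = x i ^ 2 + c
  inj : ∀ i j, x i = x j ↔ i ≡ j [MOD n]

variable {c : ℚ} {x : ℕ → ℚ} {n : ℕ}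

theorem Cy.per (C : Cy c x n) (i : ℕ) : x (i + n) = x i :=
  (C.inj _ _).mpr (by simp [Nat.ModEq])

theorem Cy.ne_add (C : Cy c x n) {k : ℕ} (hk : ¬ n ∣ k) (i : ℕ) : x i ≠ x (i + k) := by
  intro h
  have h1 := ((C.inj _ _).mp h).symm
  rw [Nat.ModEq.comm, ← Nat.add_zero i, Nat.add_assoc, Nat.zero_add] at h1
  have h2 := Nat.ModEq.add_left_cancel' i h1
  exact hk ((Nat.modEq_zero_iff_dvd).mp h2.symm)

theorem Cy.cyc (C : Cy c x n) : Pool.Agent.Results.MP_7564fc_nt.FewLongCycles.Cyc c x n := by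
  have := C.hn
  refine ⟨C.hn, C.step, C.per, C.ne_add ?_, C.ne_add ?_⟩
  · intro h
    have := Nat.le_of_dvd (by norm_num) h
    omega
  · intro h
    have := Nat.le_of_dvd (by norm_num) h
    omega

/-- two indices: the second one is the first one plus a shift -/
theorem Cy.shift (C : Cy c x n) (i j : ℕ) (hij : ¬ i ≡ j [MOD n]) :
    ∃ k, ¬ n ∣ k ∧ x (i + k) = x j := by
  have hn := C.hn
  obtain ⟨m, rfl⟩ : ∃ m, n = m + 1 := ⟨n - 1, by omega⟩
  refine ⟨j + i * m, ?_, ?_⟩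
  · intro h
    apply hij
    have h1 : i + 0 ≡ i + (j + i * m) [MOD m + 1] :=
      Nat.ModEq.add_left i ((Nat.modEq_zero_iff_dvd).mpr h).symm
    have h2 : i + (j + i * m) = j + i * (m + 1) := by ring
    rw [h2, Nat.add_zero] at h1
    refine h1.trans ?_
    simp [Nat.ModEq]
  · apply (C.inj _ _).mpr
    have h2 : i + (j + i * m) = j + i * (m + 1) := by ring
    rw [h2]
    simp [Nat.ModEq]

section padic

variable {p : ℕ} [hp : Fact p.Prime]

theorem toZMod_eq_zero (z : ℤ_[p]) : PadicInt.toZMod z = 0 ↔ (p : ℤ_[p]) ∣ z := by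
  rw [← RingHom.mem_ker, PadicInt.ker_toZMod, PadicInt.maximalIdeal_eq_span_p,
    Ideal.mem_span_singleton]

/-- the cycle in the `p`-adic integers -/
theorem Cy.lift (C : Cy c x n) (hpc : ¬ p ∣ c.den) : ∃ (X : ℕ → ℤ_[p]) (K : ℤ_[p]),
    (∀ i, ((X i : ℤ_[p]) : ℚ_[p]) = ((x i : ℚ) : ℚ_[p])) ∧ (∀ i, X (i + 1) = X i ^ 2 + K) ∧
    (∀ i j, X i = X j ↔ i ≡ j [MOD n]) ∧ ∀ i j, ¬ i ≡ j [MOD n] → IsUnit (X i + X j) := by
  have hden : ∀ i, ¬ p ∣ (x i).den := by
    intro i h
    apply hpc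
    rw [C.cyc.den_eq i]
    exact Dvd.dvd.pow h (by norm_num)
  have hx : ∀ i, ‖((x i : ℚ) : ℚ_[p])‖ ≤ 1 := fun i => Padic.norm_rat_le_one (hden i)
  have hc : ‖((c : ℚ) : ℚ_[p])‖ ≤ 1 := Padic.norm_rat_le_one hpc
  have hX' : ∀ i, ∃ z : ℤ_[p], (z : ℚ_[p]) = ((x i : ℚ) : ℚ_[p]) := fun i => ⟨⟨_, hx i⟩, rfl⟩
  choose X hXc using hX'
  obtain ⟨K, hK⟩ : ∃ z : ℤ_[p], (z : ℚ_[p]) = ((c : ℚ) : ℚ_[p]) := ⟨⟨_, hc⟩, rfl⟩
  refine ⟨X, K, hXc, ?_, ?_, ?_⟩
  · intro i
    apply Subtype.ext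
    show ((X (i + 1) : ℤ_[p]) : ℚ_[p]) = ((X i ^ 2 + K : ℤ_[p]) : ℚ_[p])
    rw [PadicInt.coe_add, PadicInt.coe_pow, hXc, hXc, hK, C.step]
    push_cast
    ring
  · intro i j
    rw [← C.inj i j]
    constructor
    · intro h
      have h1 : ((X i : ℤ_[p]) : ℚ_[p]) = ((X j : ℤ_[p]) : ℚ_[p]) := by rw [h]
      rw [hXc, hXc] at h1
      exact_mod_cast h1
    · intro h
      apply Subtype.ext
      show ((X i : ℤ_[p]) : ℚ_[p]) = ((X j : ℤ_[p]) : ℚ_[p])
      rw [hXc, hXc, h]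
  · intro i j hij
    obtain ⟨k, hk, hxk⟩ := C.shift i j hij
    rw [PadicInt.isUnit_iff]
    have h1 := (C.cyc.sum_norm (k := k) (fun i => C.ne_add hk i) p i).2 (hden 0)
    rw [hxk] at h1
    rw [PadicInt.norm_def, PadicInt.coe_add, hXc, hXc, ← Rat.cast_add, Padic.eq_padicNorm, h1]
    norm_num

variable {X : ℕ → ℤ_[p]} {K : ℤ_[p]}

/-- **The possible lengths of a cycle with good reduction.** -/
theorem period_cases (hX : ∀ i, X (i + 1) = X i ^ 2 + K)
    (hinj : ∀ i j, X i = X j ↔ i ≡ j [MOD n]) (hn : 0 < n) (m : ℕ) (hm : 0 < m) (hmn : m ∣ n)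
    (hy : PadicInt.toZMod (X m) = PadicInt.toZMod (X 0)) :
    n = m ∨ ((∏ t ∈ range m, (2 * PadicInt.toZMod (X t))) ≠ (0 : ZMod p) ∧
      n = m * orderOf (∏ t ∈ range m, (2 * PadicInt.toZMod (X t)) : ZMod p)) ∨
      (p = 3 ∧ (∏ t ∈ range m, (2 * PadicInt.toZMod (X t)) : ZMod p) = 1 ∧ n = 3 * m) := by
  by_cases hXm : X m = X 0
  · left
    have h1 := (hinj m 0).mp hXm
    exact Nat.dvd_antisymm ((Nat.modEq_zero_iff_dvd).mp h1) hmn
  right
  obtain ⟨r', rfl⟩ := hmn
  have hr' : 0 < r' := by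
    rcases Nat.eq_zero_or_pos r' with h | h
    · subst h; simp at hn
    · exact h
  obtain ⟨b, w, r, hw0, hwX, hws⟩ := exists_w hX m
  have hd0 : X m - X 0 ≠ 0 := sub_ne_zero.mpr hXm
  have hdp : (p : ℤ_[p]) ∣ X m - X 0 := by
    rw [← toZMod_eq_zero, map_sub, hy, sub_self]
  have hret : ∀ q, m * r' ∣ q * m → w q = 0 := by
    intro q hq
    have h1 : X (q * m) = X 0 := (hinj _ _).mpr ((Nat.modEq_zero_iff_dvd).mpr hq)
    have h2 := hwX q
    rw [h1] at h2
    have h3 : (X m - X 0) * w q = 0 := by linear_combination - h2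
    exact (mul_eq_zero.mp h3).resolve_left hd0
  have hret' : ∀ q, w q = 0 → m * r' ∣ q * m := by
    intro q hq
    have h2 := hwX q
    rw [hq, mul_zero, add_zero] at h2
    exact (Nat.modEq_zero_iff_dvd).mp ((hinj _ _).mp h2)
  set lam : ZMod p := ∏ t ∈ range m, (2 * PadicInt.toZMod (X t)) with hlam
  have hlam' : PadicInt.toZMod (∏ t ∈ range m, (2 * X t)) = lam := by
    rw [map_prod, hlam]
    apply Finset.prod_congr rfl
    intro t _
    rw [map_mul, map_ofNat]
  have hwbar : ∀ j, PadicInt.toZMod (w j) = ∑ i ∈ range j, lam ^ i := by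
    intro j
    induction j with
    | zero => simp [hw0]
    | succ j ih =>
      rw [hws j, geom_sum_succ]
      simp only [map_add, map_mul, map_one, map_pow, hlam', ih]
      have : PadicInt.toZMod (X m - X 0) = (0 : ZMod p) := (toZMod_eq_zero _).mpr hdp
      rw [this]
      ring
  have hsum : ∑ i ∈ range r', lam ^ i = 0 := by
    rw [← hwbar, hret r' (by rw [mul_comm]), map_zero]
  have hlam0 : lam ≠ 0 := by
    intro h
    rw [h] at hsum
    obtain ⟨s, rfl⟩ : ∃ s, r' = s + 1 := ⟨r' - 1, by omega⟩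
    rw [Finset.sum_range_succ'] at hsum
    simp at hsum
  have hp2 : p ≠ 2 := by
    intro hp2
    apply hlam0
    rw [hlam]
    obtain ⟨s, rfl⟩ : ∃ s, m = s + 1 := ⟨m - 1, by omega⟩
    rw [Finset.prod_range_succ]
    have h2 : ((2 : ℕ) : ZMod p) = 0 := (ZMod.natCast_eq_zero_iff 2 p).mpr (by rw [hp2])
    have : (2 : ZMod p) = 0 := by exact_mod_cast h2
    rw [this]
    ring
  have hpow : lam ^ r' = 1 := by
    have := geom_sum_mul lam r'
    rw [hsum, zero_mul] at this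
    exact (sub_eq_zero.mp this.symm)
  -- residues have period `m`
  have hyper : ∀ t, PadicInt.toZMod (X (t + m)) = PadicInt.toZMod (X t) := by
    intro t
    induction t with
    | zero => rw [Nat.zero_add]; exact hy
    | succ t ih =>
      rw [show t + 1 + m = t + m + 1 by ring, hX, hX, map_add, map_add, map_pow, map_pow, ih]
  have hyper2 : ∀ q t, PadicInt.toZMod (X (t + q * m)) = PadicInt.toZMod (X t) := by
    intro q t
    induction q with
    | zero => simp
    | succ q ih => rw [show t + (q + 1) * m = t + q * m + m by ring, hyper, ih]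
  have hlamq : ∀ q, PadicInt.toZMod (∏ t ∈ range (q * m), (2 * X t)) = lam ^ q := by
    intro q
    induction q with
    | zero => simp
    | succ q ih =>
      rw [Nat.succ_mul, Finset.prod_range_add, map_mul, ih, pow_succ]
      congr 1
      rw [map_prod, hlam]
      apply Finset.prod_congr rfl
      intro t _
      rw [map_mul, Nat.add_comm, hyper2, map_ofNat]
  have key : ∀ q, 0 < q → (p : ℤ_[p]) ∣ w q → lam ^ q = 1 → q ∣ r' → m * r' = q * m := by
    intro q hq hwq hlq hqr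
    obtain ⟨k, rfl⟩ := hqr
    have hk : 1 ≤ k := by
      rcases Nat.eq_zero_or_pos k with h | h
      · subst h; simp at hr'
      · exact h
    by_cases hne : X (q * m) = X 0
    · have h1 := (Nat.modEq_zero_iff_dvd).mp ((hinj _ _).mp hne)
      apply Nat.dvd_antisymm h1
      exact ⟨k, by ring⟩
    · exfalso
      have hXq : X (q * m) - X 0 = (X m - X 0) * w q := by rw [hwX q]; ring
      have hsq : (p : ℤ_[p]) ^ 2 ∣ X (q * m) - X 0 := by
        rw [hXq, sq]
        exact mul_dvd_mul hdp hwq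
      have h1 := no_return hX hp2 k (q * m) hk hne ((dvd_pow_self _ two_ne_zero).trans hsq)
        (fun _ => hsq) (by
          rw [← toZMod_eq_zero, map_sub, hlamq, hlq, map_one, sub_self])
      apply h1
      apply (hinj _ _).mpr
      rw [Nat.modEq_zero_iff_dvd]
      exact ⟨1, by ring⟩
  by_cases hl1 : lam = 1
  · -- multiplier one
    by_cases hp3 : p = 3
    · right
      refine ⟨hp3, hl1, ?_⟩
      have h1 : (r' : ZMod p) = 0 := by
        rw [hl1] at hsum
        simpa using hsum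
      have h2 : p ∣ r' := (ZMod.natCast_eq_zero_iff _ _).mp h1
      rw [hp3] at h2
      refine key 3 (by norm_num) ?_ (by rw [hl1, one_pow]) h2
      rw [← toZMod_eq_zero, hwbar, hl1]
      simp only [one_pow, sum_const, card_range, nsmul_eq_mul, mul_one]
      exact (ZMod.natCast_eq_zero_iff 3 p).mpr (by rw [hp3])
    · exfalso
      have h1 := no_return hX hp2 r' m hr' hXm hdp (fun h => absurd h hp3) (by
        rw [← toZMod_eq_zero, map_sub, hlam', hl1, map_one, sub_self])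
      apply h1
      apply (hinj _ _).mpr
      rw [Nat.modEq_zero_iff_dvd]
      exact ⟨1, by ring⟩
  · left
    refine ⟨hlam0, ?_⟩
    have ho : 0 < orderOf lam := orderOf_pos_iff.mpr (isOfFinOrder_iff_pow_eq_one.mpr ⟨r', hr', hpow⟩)
    rw [key (orderOf lam) ho ?_ (pow_orderOf_eq_one lam) (orderOf_dvd_of_pow_eq_one hpow)]
    · ring
    · rw [← toZMod_eq_zero, hwbar]
      have h1 := geom_sum_mul lam (orderOf lam)
      rw [pow_orderOf_eq_one, sub_self] at h1
      exact (mul_eq_zero.mp h1).resolve_right (sub_ne_zero.mpr hl1)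

end padic

end Pool.Agent.W2helper83.FP
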