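import Mathlib
import Pool.Agent.W2helper83.FP.Good

/-!
The shape of a rational cycle of `x ^ 2 + c` at a prime which divides the denominator of `c`: the
valuations of the sums of two points of the cycle are a multiple of an expression in a primitive
binary word.
-/

set_option autoImplicit false

namespace Pool.Agent.W2helper83.FP

open Finset

/-- the length of the common part of a word read from two positions -/
def run (w : ℕ → Bool) : ℕ → ℕ → ℕ → ℕ
  | 0, _, _ => 0
  | f + 1, i, j => if w i = w j then run w f (i + 1) (j + 1) + 1 else 0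

/-- the exponents belonging to a word -/
def mu (w : ℕ → Bool) (n i j : ℕ) : ℕ := if w i = w j then 0 else run w n (i + 1) (j + 1) + 1

theorem run_spec {w : ℕ → Bool} {A : ℕ → ℕ → ℕ} {n e : ℕ}
    (h1 : ∀ i j, ¬ i ≡ j [MOD n] → w i = w j → A i j = A (i + 1) (j + 1) + e) (f : ℕ) :
    ∀ i j, ¬ i ≡ j [MOD n] → A i j = e * run w f i j + A (i + run w f i j) (j + run w f i j) ∧
      (run w f i j = f ∨ w (i + run w f i j) ≠ w (j + run w f i j)) := by
  induction f with
  | zero => intro i j _; simp [run]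
  | succ f ih =>
    intro i j hij
    by_cases h : w i = w j
    · have h2 : ¬ (i + 1) ≡ (j + 1) [MOD n] := fun h3 => hij (Nat.ModEq.add_right_cancel' 1 h3)
      obtain ⟨h4, h5⟩ := ih (i + 1) (j + 1) h2
      have h6 : run w (f + 1) i j = run w f (i + 1) (j + 1) + 1 := by rw [run, if_pos h]
      rw [h6, h1 i j hij h, h4]
      rw [show i + 1 + run w f (i + 1) (j + 1) = i + (run w f (i + 1) (j + 1) + 1) by ring,
        show j + 1 + run w f (i + 1) (j + 1) = j + (run w f (i + 1) (j + 1) + 1) by ring] at h5 ⊢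
      refine ⟨by ring, ?_⟩
      rcases h5 with h5 | h5
      · left; rw [h5]
      · right; exact h5
    · have h6 : run w (f + 1) i j = 0 := by rw [run, if_neg h]
      rw [h6]
      simp [h]

theorem run_core {w : ℕ → Bool} {A : ℕ → ℕ → ℕ} {n e : ℕ} (hn : 0 < n) (he : 0 < e)
    (hA : ∀ i j, A (i + n) (j + n) = A i j)
    (h1 : ∀ i j, ¬ i ≡ j [MOD n] → w i = w j → A i j = A (i + 1) (j + 1) + e)
    (h2 : ∀ i j, ¬ i ≡ j [MOD n] → w i ≠ w j → A i j = 0) (i j : ℕ) (hij : ¬ i ≡ j [MOD n]) :
    A i j = e * run w n i j ∧ ∃ t, w (i + t) ≠ w (j + t) := by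
  obtain ⟨h3, h4⟩ := run_spec h1 n i j hij
  have h5 : w (i + run w n i j) ≠ w (j + run w n i j) := by
    rcases h4 with h4 | h4
    · exfalso
      rw [h4, hA] at h3
      have : 0 < e * n := Nat.mul_pos he hn
      omega
    · exact h4
  refine ⟨?_, _, h5⟩
  have h6 : ¬ (i + run w n i j) ≡ (j + run w n i j) [MOD n] :=
    fun h => hij (Nat.ModEq.add_right_cancel' _ h)
  rw [h2 _ _ h6 h5, Nat.add_zero] at h3
  exact h3

/-- the abstract form of the statement at one prime: `A` and `B` are the (reduced) valuations of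
the differences and sums of the numerators -/
theorem word_core {w : ℕ → Bool} {A B : ℕ → ℕ → ℕ} {n e : ℕ} (hn : 3 ≤ n)
    (hw0 : w 0 = false) (hw : ∀ i, w (i + n) = w i)
    (hA : ∀ i j, A (i + n) (j + n) = A i j)
    (hs : ∀ i j, ¬ i ≡ j [MOD n] → A (i + 1) (j + 1) + e = A i j + B i j)
    (h1 : ∀ i j, ¬ i ≡ j [MOD n] → w i = w j → B i j = 0 ∧ 0 < A i j)
    (h2 : ∀ i j, ¬ i ≡ j [MOD n] → w i ≠ w j → A i j = 0) :
    ∃ w' : ℕ → Bool, w' 0 = false ∧ (∀ i, w' (i + n) = w' i) ∧
      (∀ d, 0 < d → d < n → ∃ i, w' (i + d) ≠ w' i) ∧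
      ∀ i j, ¬ i ≡ j [MOD n] → (B i j : ℤ) - e = e * ((mu w' n i j : ℤ) - 1) := by
  have h1' : ∀ i j, ¬ i ≡ j [MOD n] → w i = w j → A i j = A (i + 1) (j + 1) + e := by
    intro i j hij h
    have h3 := hs i j hij
    rw [(h1 i j hij h).1] at h3
    omega
  rcases Nat.eq_zero_or_pos e with he | he
  · -- the degenerate case
    subst he
    have hzero : ∀ i j, ¬ i ≡ j [MOD n] → w i ≠ w j → A (i + 1) (j + 1) = 0 := by
      intro i j hij h
      by_contra hne
      have key : ∀ t, A (i + 1 + t) (j + 1 + t) = A (i + 1) (j + 1) := by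
        intro t
        induction t with
        | zero => rfl
        | succ t ih =>
          have h3 : ¬ (i + 1 + t) ≡ (j + 1 + t) [MOD n] := by
            intro h4
            rw [Nat.add_assoc, Nat.add_assoc] at h4
            exact hij (Nat.ModEq.add_right_cancel' _ h4)
          have h5 : w (i + 1 + t) = w (j + 1 + t) := by
            by_contra h6
            have h7 := h2 _ _ h3 h6
            rw [ih] at h7
            exact hne h7
          have h8 := h1' _ _ h3 h5
          rw [ih] at h8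
          rw [← Nat.add_assoc, ← Nat.add_assoc]
          omega
      have h3 := key (n - 1)
      rw [show i + 1 + (n - 1) = i + n by omega, show j + 1 + (n - 1) = j + n by omega, hA,
        h2 i j hij h] at h3
      exact hne h3.symm
    have hB : ∀ i j, ¬ i ≡ j [MOD n] → B i j = 0 := by
      intro i j hij
      by_cases h : w i = w j
      · exact (h1 i j hij h).1
      · have h3 := hs i j hij
        rw [hzero i j hij h] at h3
        omega
    refine ⟨fun i => i % n == 1, by simp, ?_, ?_, ?_⟩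
    · intro i
      simp
    · intro d hd hdn
      refine ⟨1, ?_⟩
      have h3 : (1 + d) % n ≠ 1 := by
        intro h4
        rcases Nat.lt_or_ge (1 + d) n with h5 | h5
        · rw [Nat.mod_eq_of_lt h5] at h4; omega
        · have h6 : 1 + d = n := by omega
          rw [h6, Nat.mod_self] at h4
          omega
      have h4 : 1 % n = 1 := Nat.mod_eq_of_lt (by omega)
      show ((1 + d) % n == 1) ≠ (1 % n == 1)
      rw [h4]
      simpa using h3
    · intro i j hij
      rw [hB i j hij]
      simp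
  · refine ⟨w, hw0, hw, ?_, ?_⟩
    · intro d hd hdn
      have h3 : ¬ (d ≡ 0 [MOD n]) := by
        rw [Nat.modEq_zero_iff_dvd]
        intro h4
        have := Nat.le_of_dvd hd h4
        omega
      obtain ⟨-, t, ht⟩ := run_core (by omega) he hA h1' h2 d 0 h3
      rw [Nat.add_comm d t, Nat.zero_add] at ht
      exact ⟨t, ht⟩
    · intro i j hij
      have h3 : ¬ (i + 1) ≡ (j + 1) [MOD n] := fun h3 => hij (Nat.ModEq.add_right_cancel' 1 h3)
      obtain ⟨h4, -⟩ := run_core (by omega) he hA h1' h2 (i + 1) (j + 1) h3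
      by_cases h : w i = w j
      · rw [(h1 i j hij h).1, mu, if_pos h]
        push_cast
        ring
      · have h5 := hs i j hij
        rw [h2 i j hij h, h4] at h5
        rw [mu, if_neg h]
        have h6 : (B i j : ℤ) = e * run w n (i + 1) (j + 1) + e := by
          exact_mod_cast (by omega : B i j = e * run w n (i + 1) (j + 1) + e)
        rw [h6]
        push_cast
        ring

variable {c : ℚ} {x : ℕ → ℚ} {n : ℕ}

theorem Cy.eq_div (C : Cy c x n) (i : ℕ) : x i = ((x i).num : ℚ) / ((x 0).den : ℚ) := by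
  rw [C.cyc.den_const 0 i]
  exact (Rat.num_div_den (x i)).symm

theorem Cy.key (C : Cy c x n) (i j : ℕ) :
    ((x 0).den : ℤ) * ((x (i + 1)).num - (x (j + 1)).num) =
      ((x i).num - (x j).num) * ((x i).num + (x j).num) := by
  have hD : ((x 0).den : ℚ) ≠ 0 := by exact_mod_cast (x 0).den_ne_zero
  have h1 : x (i + 1) - x (j + 1) = (x i - x j) * (x i + x j) := by
    rw [C.step, C.step]; ring
  rw [C.eq_div (i + 1), C.eq_div (j + 1), C.eq_div i, C.eq_div j] at h1
  field_simp at h1
  have h2 : ((((x 0).den : ℤ) * ((x (i + 1)).num - (x (j + 1)).num) : ℤ) : ℚ) =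
      ((((x i).num - (x j).num) * ((x i).num + (x j).num) : ℤ) : ℚ) := by
    push_cast
    exact h1
  exact_mod_cast h2

theorem Cy.diff_ne (C : Cy c x n) {i j : ℕ} (hij : ¬ i ≡ j [MOD n]) :
    (x i).num - (x j).num ≠ 0 := by
  intro h
  apply hij
  rw [← C.inj, C.eq_div i, C.eq_div j, sub_eq_zero.mp h]

theorem not_succ_modEq {i j : ℕ} (hij : ¬ i ≡ j [MOD n]) : ¬ (i + 1) ≡ (j + 1) [MOD n] :=
  fun h => hij (Nat.ModEq.add_right_cancel' 1 h)

theorem Cy.add_ne (C : Cy c x n) {i j : ℕ} (hij : ¬ i ≡ j [MOD n]) :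
    (x i).num + (x j).num ≠ 0 := by
  intro h
  have h1 := C.key i j
  rw [h, mul_zero] at h1
  rcases mul_eq_zero.mp h1 with h2 | h2
  · have := (x 0).den_ne_zero
    exact this (by exact_mod_cast h2)
  · exact C.diff_ne (not_succ_modEq hij) h2

theorem Cy.val_key (C : Cy c x n) (q : ℕ) [Fact q.Prime] {i j : ℕ} (hij : ¬ i ≡ j [MOD n]) :
    padicValInt q ((x 0).den : ℤ) + padicValInt q ((x (i + 1)).num - (x (j + 1)).num) =
      padicValInt q ((x i).num - (x j).num) + padicValInt q ((x i).num + (x j).num) := by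
  have hD : ((x 0).den : ℤ) ≠ 0 := by exact_mod_cast (x 0).den_ne_zero
  rw [← padicValInt.mul hD (C.diff_ne (not_succ_modEq hij)),
    ← padicValInt.mul (C.diff_ne hij) (C.add_ne hij), C.key]

theorem Cy.val_sum (C : Cy c x n) (q : ℕ) [Fact q.Prime] {i j : ℕ} (hij : ¬ i ≡ j [MOD n]) :
    padicValRat q (x i + x j) =
      (padicValInt q ((x i).num + (x j).num) : ℤ) - padicValInt q ((x 0).den : ℤ) := by
  have hD : ((x 0).den : ℚ) ≠ 0 := by exact_mod_cast (x 0).den_ne_zero
  have h1 : x i + x j = (((x i).num + (x j).num : ℤ) : ℚ) / (((x 0).den : ℤ) : ℚ) := by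
    have h3 := C.eq_div i
    have h4 := C.eq_div j
    push_cast
    rw [add_div, ← h3, ← h4]
  have h2 : (((x i).num + (x j).num : ℤ) : ℚ) ≠ 0 := by exact_mod_cast C.add_ne hij
  rw [h1, padicValRat.div h2 (by exact_mod_cast hD), padicValRat.of_int, padicValRat.of_int]

theorem Cy.letter_aux (C : Cy c x n) (q : ℕ) [Fact q.Prime] (g : ℕ) (w : ℕ → Bool)
    (hw0 : w 0 = false) (hw : ∀ i, w (i + n) = w i) (hD : g ≤ padicValInt q ((x 0).den : ℤ))
    (hS : ∀ i j, ¬ i ≡ j [MOD n] → w i = w j → padicValInt q ((x i).num + (x j).num) = g ∧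
      g < padicValInt q ((x i).num - (x j).num))
    (hU : ∀ i j, ¬ i ≡ j [MOD n] → w i ≠ w j → padicValInt q ((x i).num - (x j).num) = g ∧
      g ≤ padicValInt q ((x i).num + (x j).num)) :
    ∃ (e : ℕ) (w' : ℕ → Bool), w' 0 = false ∧ (∀ i, w' (i + n) = w' i) ∧
      (∀ d, 0 < d → d < n → ∃ i, w' (i + d) ≠ w' i) ∧
      ∀ i j, ¬ i ≡ j [MOD n] → padicValRat q (x i + x j) = e * ((mu w' n i j : ℤ) - 1) := by
  have hUg : ∀ i j, ¬ i ≡ j [MOD n] → g ≤ padicValInt q ((x i).num - (x j).num) := by
    intro i j hij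
    by_cases h : w i = w j
    · exact (hS i j hij h).2.le
    · exact (hU i j hij h).1.ge
  have hSg : ∀ i j, ¬ i ≡ j [MOD n] → g ≤ padicValInt q ((x i).num + (x j).num) := by
    intro i j hij
    by_cases h : w i = w j
    · exact (hS i j hij h).1.ge
    · exact (hU i j hij h).2
  obtain ⟨w', h0, h1, h2, h3⟩ := word_core
    (A := fun i j => padicValInt q ((x i).num - (x j).num) - g)
    (B := fun i j => padicValInt q ((x i).num + (x j).num) - g)
    (e := padicValInt q ((x 0).den : ℤ) - g) C.hn hw0 hw (by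
      intro i j
      show padicValInt q ((x (i + n)).num - (x (j + n)).num) - g = _
      rw [C.per, C.per]) (by
      intro i j hij
      have h1 := C.val_key q hij
      have h2 := hUg i j hij
      have h3 := hSg i j hij
      have h4 := hUg _ _ (not_succ_modEq hij)
      show (padicValInt q ((x (i + 1)).num - (x (j + 1)).num) - g) +
        (padicValInt q ((x 0).den : ℤ) - g) = (padicValInt q ((x i).num - (x j).num) - g) +
        (padicValInt q ((x i).num + (x j).num) - g)
      omega) (by
      intro i j hij h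
      have h1 := hS i j hij h
      show padicValInt q ((x i).num + (x j).num) - g = 0 ∧
        0 < padicValInt q ((x i).num - (x j).num) - g
      omega) (by
      intro i j hij h
      have h1 := hU i j hij h
      show padicValInt q ((x i).num - (x j).num) - g = 0
      omega)
  refine ⟨padicValInt q ((x 0).den : ℤ) - g, w', h0, h1, h2, ?_⟩
  intro i j hij
  rw [C.val_sum q hij, ← h3 i j hij]
  have h4 := hSg i j hij
  show _ = ((padicValInt q ((x i).num + (x j).num) - g : ℕ) : ℤ) -
    ((padicValInt q ((x 0).den : ℤ) - g : ℕ) : ℤ)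
  omega

theorem padicValInt_eq_zero {q : ℕ} {z : ℤ} (h : ¬ (q : ℤ) ∣ z) : padicValInt q z = 0 :=
  padicValInt.eq_zero_of_not_dvd h

theorem one_le_padicValInt {q : ℕ} [hq : Fact q.Prime] {z : ℤ} (hz : z ≠ 0) (h : (q : ℤ) ∣ z) :
    1 ≤ padicValInt q z := by
  have h1 : (q : ℤ) ^ 1 ∣ z := by rwa [pow_one]
  have := (padicValInt_dvd_iff 1 z).mp h1
  rcases this with h2 | h2
  · exact absurd h2 hz
  · exact h2

theorem Cy.dvd_den (C : Cy c x n) {q : ℕ} (hq : q.Prime) (hqc : q ∣ c.den) : q ∣ (x 0).den := by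
  rw [C.cyc.den_eq 0] at hqc
  exact hq.dvd_of_dvd_pow hqc

theorem Cy.not_dvd_num (C : Cy c x n) {q : ℕ} (hq : q.Prime) (hqc : q ∣ c.den) (i : ℕ) :
    ¬ (q : ℤ) ∣ (x i).num := by
  intro h
  have h1 := C.dvd_den hq hqc
  rw [C.cyc.den_const 0 i] at h1
  have h2 : q ∣ (x i).num.natAbs := Int.natCast_dvd.mp h
  have h3 := Nat.dvd_gcd h2 h1
  rw [(x i).reduced] at h3
  exact hq.one_lt.ne' (Nat.dvd_one.mp h3)

/-- **The valuations of the sums at a prime of the denominator.** -/
theorem Cy.letter (C : Cy c x n) {q : ℕ} (hq : q.Prime) (hqc : q ∣ c.den) :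
    ∃ (e : ℕ) (w' : ℕ → Bool), w' 0 = false ∧ (∀ i, w' (i + n) = w' i) ∧
      (∀ d, 0 < d → d < n → ∃ i, w' (i + d) ≠ w' i) ∧
      ∀ i j, ¬ i ≡ j [MOD n] → padicValRat q (x i + x j) = e * ((mu w' n i j : ℤ) - 1) := by
  have : Fact q.Prime := ⟨hq⟩
  have hDne : ((x 0).den : ℤ) ≠ 0 := by exact_mod_cast (x 0).den_ne_zero
  have hqD : (q : ℤ) ∣ ((x 0).den : ℤ) := by exact_mod_cast C.dvd_den hq hqc
  have hqi : Prime (q : ℤ) := Nat.prime_iff_prime_int.mp hq
  by_cases hq2 : q = 2
  · -- the prime two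
    subst hq2
    have hodd : ∀ i, (x i).num % 2 = 1 := by
      intro i
      have := C.not_dvd_num hq hqc i
      push_cast at this
      omega
    have h4 : ∀ i j, (4 : ℤ) ∣ (x i).num - (x j).num ∨ (4 : ℤ) ∣ (x i).num + (x j).num := by
      intro i j
      have h1 := hodd i
      have h2 := hodd j
      omega
    have h22 : ∀ z : ℤ, z ≠ 0 → (4 : ℤ) ∣ z → 1 < padicValInt 2 z := by
      intro z hz h
      have h1 : ((2 : ℕ) : ℤ) ^ 2 ∣ z := by
        push_cast
        exact h
      rcases (padicValInt_dvd_iff 2 z).mp h1 with h2 | h2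
      · exact absurd h2 hz
      · omega
    have h21 : ∀ z : ℤ, z % 4 = 2 → padicValInt 2 z = 1 := by
      intro z hz
      have hz0 : z ≠ 0 := by rintro rfl; norm_num at hz
      have h1 : 1 ≤ padicValInt 2 z := one_le_padicValInt hz0 (by push_cast; omega)
      have h2 : ¬ 2 ≤ padicValInt 2 z := by
        intro h3
        have h4 : ((2 : ℕ) : ℤ) ^ 2 ∣ z := (padicValInt_dvd_iff 2 z).mpr (Or.inr h3)
        push_cast at h4
        omega
      omega
    refine C.letter_aux 2 1 (fun i => !decide ((4 : ℤ) ∣ (x i).num - (x 0).num)) (by simp) ?_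
      (one_le_padicValInt hDne hqD) ?_ ?_
    · intro i
      rw [C.per]
    · intro i j hij h
      have h1 := hodd i
      have h2 := hodd j
      have h3 := hodd 0
      have h5 : (4 : ℤ) ∣ (x i).num - (x 0).num ↔ (4 : ℤ) ∣ (x j).num - (x 0).num := by
        simpa using h
      have h6 : (4 : ℤ) ∣ (x i).num - (x j).num := by omega
      refine ⟨h21 _ (by omega), h22 _ (C.diff_ne hij) h6⟩
    · intro i j hij h
      have h1 := hodd i
      have h2 := hodd j
      have h3 := hodd 0
      have h5 : ¬ ((4 : ℤ) ∣ (x i).num - (x 0).num ↔ (4 : ℤ) ∣ (x j).num - (x 0).num) := by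
        simpa using h
      have h6 : (4 : ℤ) ∣ (x i).num + (x j).num := by omega
      refine ⟨h21 _ (by omega), (h22 _ (C.add_ne hij) h6).le⟩
  · -- an odd prime
    have hq2' : ¬ (q : ℤ) ∣ 2 := by
      intro h
      have h1 : q ∣ 2 := by exact_mod_cast h
      exact hq2 ((Nat.prime_dvd_prime_iff_eq hq Nat.prime_two).mp h1)
    have hor : ∀ i j, (q : ℤ) ∣ (x i).num - (x j).num ∨ (q : ℤ) ∣ (x i).num + (x j).num := by
      intro i j
      apply hqi.dvd_or_dvd
      rw [← C.key]
      exact Dvd.dvd.mul_right hqD _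
    have hnot : ∀ i j, (q : ℤ) ∣ (x i).num - (x j).num → ¬ (q : ℤ) ∣ (x i).num + (x j).num := by
      intro i j h1 h2
      have h3 : (q : ℤ) ∣ 2 * (x i).num := by
        have := dvd_add h1 h2
        rwa [show (x i).num - (x j).num + ((x i).num + (x j).num) = 2 * (x i).num by ring] at this
      rcases hqi.dvd_or_dvd h3 with h4 | h4
      · exact hq2' h4
      · exact C.not_dvd_num hq hqc i h4
    have hsame : ∀ i j, ((q : ℤ) ∣ (x i).num - (x 0).num ↔ (q : ℤ) ∣ (x j).num - (x 0).num) →
        (q : ℤ) ∣ (x i).num - (x j).num := by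
      intro i j h
      by_cases h1 : (q : ℤ) ∣ (x i).num - (x 0).num
      · have h2 := dvd_sub h1 (h.mp h1)
        rwa [show (x i).num - (x 0).num - ((x j).num - (x 0).num) = (x i).num - (x j).num by
          ring] at h2
      · have h2 : ¬ (q : ℤ) ∣ (x j).num - (x 0).num := fun h3 => h1 (h.mpr h3)
        have h3 := (hor i 0).resolve_left h1
        have h4 := (hor j 0).resolve_left h2
        have h5 := dvd_sub h3 h4
        rwa [show (x i).num + (x 0).num - ((x j).num + (x 0).num) = (x i).num - (x j).num by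
          ring] at h5
    have hdiff : ∀ i j, ¬ ((q : ℤ) ∣ (x i).num - (x 0).num ↔ (q : ℤ) ∣ (x j).num - (x 0).num) →
        (q : ℤ) ∣ (x i).num + (x j).num := by
      intro i j h
      by_cases h1 : (q : ℤ) ∣ (x i).num - (x 0).num
      · have h2 : ¬ (q : ℤ) ∣ (x j).num - (x 0).num := fun h3 => h ⟨fun _ => h3, fun _ => h1⟩
        have h4 := (hor j 0).resolve_left h2
        have h5 := dvd_add h1 h4
        rwa [show (x i).num - (x 0).num + ((x j).num + (x 0).num) = (x i).num + (x j).num by
          ring] at h5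
      · have h2 : (q : ℤ) ∣ (x j).num - (x 0).num := by
          by_contra h3
          exact h ⟨fun h4 => absurd h4 h1, fun h4 => absurd h4 h3⟩
        have h4 := (hor i 0).resolve_left h1
        have h5 := dvd_add h4 h2
        rwa [show (x i).num + (x 0).num + ((x j).num - (x 0).num) = (x i).num + (x j).num by
          ring] at h5
    refine C.letter_aux q 0 (fun i => !decide ((q : ℤ) ∣ (x i).num - (x 0).num)) (by simp) ?_
      (Nat.zero_le _) ?_ ?_
    · intro i
      rw [C.per]
    · intro i j hij h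
      have h1 := hsame i j (by simpa using h)
      exact ⟨padicValInt_eq_zero (hnot i j h1), one_le_padicValInt (C.diff_ne hij) h1⟩
    · intro i j hij h
      have h1 := hdiff i j (by simpa using h)
      refine ⟨padicValInt_eq_zero ?_, Nat.zero_le _⟩
      intro h2
      exact hnot i j h2 h1

end Pool.Agent.W2helper83.FP
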