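import Mathlib
import Pool.Agent.W2helper83.FP.Letter

/-!
The sums of two points of a rational cycle of `x ^ 2 + c`, up to sign, in terms of the primes of
the denominator and of the words belonging to them, also modulo an auxiliary prime.
-/

set_option autoImplicit false

namespace Pool.Agent.W2helper83.FP

open Finset

theorem abs_one_of_val {r : ℚ} (hr : r ≠ 0) (h : ∀ q : ℕ, q.Prime → padicValRat q r = 0) :
    |r| = 1 := by
  have hcop := r.reduced
  have hden : r.den = 1 := by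
    rw [Nat.eq_one_iff_not_exists_prime_dvd]
    intro q hq hqd
    have : Fact q.Prime := ⟨hq⟩
    have h1 := h q hq
    rw [padicValRat] at h1
    have h2 : ¬ (q : ℤ) ∣ r.num := by
      intro h3
      have h4 := Nat.dvd_gcd (Int.natCast_dvd.mp h3) hqd
      rw [hcop] at h4
      exact hq.one_lt.ne' (Nat.dvd_one.mp h4)
    rw [padicValInt.eq_zero_of_not_dvd h2] at h1
    have h3 : 1 ≤ padicValNat q r.den := one_le_padicValNat_of_dvd r.den_ne_zero hqd
    omega
  have hnum : r.num.natAbs = 1 := by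
    rw [Nat.eq_one_iff_not_exists_prime_dvd]
    intro q hq hqd
    have : Fact q.Prime := ⟨hq⟩
    have h1 := h q hq
    rw [padicValRat, hden] at h1
    have h3 : 1 ≤ padicValNat q r.num.natAbs :=
      one_le_padicValNat_of_dvd (Int.natAbs_ne_zero.mpr (Rat.num_ne_zero.mpr hr)) hqd
    rw [padicValInt, padicValNat_one_right] at h1
    omega
  have h1 : r = (r.num : ℚ) := by
    have h2 := Rat.num_div_den r
    rw [hden] at h2
    simpa using h2.symm
  rw [h1]
  rcases Int.natAbs_eq r.num with h2 | h2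
  · rw [h2, hnum]; norm_num
  · rw [h2, hnum]; norm_num

theorem padicValNat_prod (B : Finset ℕ) (hB : ∀ q ∈ B, q.Prime) (f : ℕ → ℕ) (r : ℕ) (hr : r.Prime) :
    padicValNat r (∏ q ∈ B, q ^ f q) = if r ∈ B then f r else 0 := by
  have : Fact r.Prime := ⟨hr⟩
  induction B using Finset.induction_on with
  | empty => simp
  | insert a s ha ih =>
    have ha' : a.Prime := hB a (Finset.mem_insert_self a s)
    have hs : ∀ q ∈ s, q.Prime := fun q hq => hB q (Finset.mem_insert_of_mem hq)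
    have : Fact a.Prime := ⟨ha'⟩
    rw [Finset.prod_insert ha, padicValNat.mul (pow_ne_zero _ ha'.ne_zero)
      (Finset.prod_ne_zero_iff.mpr fun q hq => pow_ne_zero _ (hs q hq).ne_zero),
      padicValNat.pow, ih hs]
    by_cases hra : r = a
    · subst hra
      simp [ha]
    · rw [padicValNat_primes hra]
      simp [hra]

variable {c : ℚ} {x : ℕ → ℚ} {n : ℕ}

/-- at the primes of good reduction the sums are units -/
theorem Cy.val_good (C : Cy c x n) {q : ℕ} (hq : q.Prime) (hqc : ¬ q ∣ c.den) {i j : ℕ}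
    (hij : ¬ i ≡ j [MOD n]) : padicValRat q (x i + x j) = 0 := by
  have : Fact q.Prime := ⟨hq⟩
  obtain ⟨k, hk, hxk⟩ := C.shift i j hij
  have hden : ¬ q ∣ (x 0).den := by
    intro h
    apply hqc
    rw [C.cyc.den_eq 0]
    exact Dvd.dvd.pow h (by norm_num)
  have h1 := (C.cyc.sum_norm (k := k) (fun i => C.ne_add hk i) q i).2 hden
  rw [hxk] at h1
  have h2 : x i + x j ≠ 0 := by
    intro h3
    rw [h3, padicNorm.zero] at h1
    norm_num at h1
  rw [padicNorm.eq_zpow_of_nonzero h2] at h1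
  have hq1 : (1 : ℚ) < q := by exact_mod_cast hq.one_lt
  have h3 := (zpow_eq_one_iff_right₀ (by positivity) hq1.ne').mp h1
  omega

/-- **The sums up to sign.** -/
theorem Cy.global (C : Cy c x n) : ∃ (e : ℕ → ℕ) (w : ℕ → ℕ → Bool),
    (∀ q ∈ c.den.primeFactors, w q 0 = false ∧ (∀ i, w q (i + n) = w q i) ∧
      (∀ d, 0 < d → d < n → ∃ i, w q (i + d) ≠ w q i)) ∧
    ∀ i j, ¬ i ≡ j [MOD n] →
      ((x i + x j) * ((∏ q ∈ c.den.primeFactors, q ^ e q : ℕ) : ℚ)) ^ 2 =
        ((∏ q ∈ c.den.primeFactors, q ^ (e q * mu (w q) n i j) : ℕ) : ℚ) ^ 2 := by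
  have h1 : ∀ q : ℕ, ∃ (e : ℕ) (w : ℕ → Bool), q ∈ c.den.primeFactors →
      (w 0 = false ∧ (∀ i, w (i + n) = w i) ∧
      (∀ d, 0 < d → d < n → ∃ i, w (i + d) ≠ w i)) ∧
      ∀ i j, ¬ i ≡ j [MOD n] → padicValRat q (x i + x j) = e * ((mu w n i j : ℤ) - 1) := by
    intro q
    by_cases hq : q ∈ c.den.primeFactors
    · obtain ⟨e, w, h0, h1, h2, h3⟩ := C.letter (Nat.prime_of_mem_primeFactors hq)
        (Nat.dvd_of_mem_primeFactors hq)
      exact ⟨e, w, fun _ => ⟨⟨h0, h1, h2⟩, h3⟩⟩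
    · exact ⟨0, fun _ => false, fun h => absurd h hq⟩
  choose e w hew using h1
  refine ⟨e, w, fun q hq => (hew q hq).1, ?_⟩
  intro i j hij
  have hB : ∀ q ∈ c.den.primeFactors, q.Prime := fun q hq => Nat.prime_of_mem_primeFactors hq
  set M := ∏ q ∈ c.den.primeFactors, q ^ e q with hM
  set N := ∏ q ∈ c.den.primeFactors, q ^ (e q * mu (w q) n i j) with hN
  have hM0 : M ≠ 0 := Finset.prod_ne_zero_iff.mpr fun q hq => pow_ne_zero _ (hB q hq).ne_zero
  have hN0 : N ≠ 0 := Finset.prod_ne_zero_iff.mpr fun q hq => pow_ne_zero _ (hB q hq).ne_zero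
  have hMQ : (M : ℚ) ≠ 0 := by exact_mod_cast hM0
  have hNQ : (N : ℚ) ≠ 0 := by exact_mod_cast hN0
  have hs : x i + x j ≠ 0 := by
    intro h
    have h2 := C.key i j
    have h3 : ((x i).num + (x j).num : ℤ) = 0 := by
      have h4 := C.eq_div i
      have h5 := C.eq_div j
      have hD : ((x 0).den : ℚ) ≠ 0 := by exact_mod_cast (x 0).den_ne_zero
      have h6 : (((x i).num + (x j).num : ℤ) : ℚ) / ((x 0).den : ℚ) = 0 := by
        push_cast
        rw [add_div, ← h4, ← h5, h]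
      rcases div_eq_zero_iff.mp h6 with h7 | h7
      · exact_mod_cast h7
      · exact absurd h7 hD
    exact C.add_ne hij h3
  have hr : (x i + x j) * (M : ℚ) / (N : ℚ) ≠ 0 := div_ne_zero (mul_ne_zero hs hMQ) hNQ
  have h2 := abs_one_of_val hr (by
    intro q hq
    have : Fact q.Prime := ⟨hq⟩
    rw [padicValRat.div (mul_ne_zero hs hMQ) hNQ, padicValRat.mul hs hMQ, padicValRat.of_nat,
      padicValRat.of_nat, hM, hN, padicValNat_prod _ hB _ _ hq, padicValNat_prod _ hB _ _ hq]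
    by_cases hqB : q ∈ c.den.primeFactors
    · rw [(hew q hqB).2 i j hij, if_pos hqB, if_pos hqB]
      push_cast
      ring
    · rw [if_neg hqB, if_neg hqB, C.val_good hq ?_ hij]
      · simp
      · intro h
        exact hqB (Nat.mem_primeFactors.mpr ⟨hq, h, c.den_ne_zero⟩))
  have h3 : ((x i + x j) * (M : ℚ) / (N : ℚ)) ^ 2 = 1 := by
    rw [← sq_abs, h2, one_pow]
  rw [div_pow, div_eq_one_iff_eq (pow_ne_zero 2 hNQ)] at h3
  exact h3

section padic

variable {p : ℕ} [hp : Fact p.Prime]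

/-- **The sums modulo an auxiliary prime.** -/
theorem Cy.feas (C : Cy c x n) (hpc : ¬ p ∣ c.den) (L : ℕ) (T : ℕ → ℕ → ℕ → ℕ)
    (hT : ∀ w : ℕ → Bool, w 0 = false → (∀ i, w (i + n) = w i) →
      (∀ d, 0 < d → d < n → ∃ i, w (i + d) ≠ w i) →
      ∃ l, l < L ∧ ∀ i j, i < j → j < n → mu w n i j = T l i j)
    {X : ℕ → ℤ_[p]} (hX : ∀ i, ((X i : ℤ_[p]) : ℚ_[p]) = ((x i : ℚ) : ℚ_[p])) :
    ∃ (P : ℕ → ZMod p) (S : Finset ℕ), (∀ l ∈ S, l < L) ∧ S.card ≤ c.den.primeFactors.card ∧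
      (∀ l, P l ≠ 0) ∧ (∀ l, l ∉ S → P l = 1) ∧
      ∀ i j, i < j → j < n →
        ((PadicInt.toZMod (X i) + PadicInt.toZMod (X j)) * ∏ l ∈ range L, P l) ^ 2 =
          (∏ l ∈ range L, P l ^ T l i j) ^ 2 := by
  obtain ⟨e, w, hw, hglob⟩ := C.global
  have h1 : ∀ q : ℕ, ∃ l, q ∈ c.den.primeFactors →
      (l < L ∧ ∀ i j, i < j → j < n → mu (w q) n i j = T l i j) := by
    intro q
    by_cases hq : q ∈ c.den.primeFactors
    · obtain ⟨h0, h1, h2⟩ := hw q hq
      obtain ⟨l, hl⟩ := hT (w q) h0 h1 h2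
      exact ⟨l, fun _ => hl⟩
    · exact ⟨0, fun h => absurd h hq⟩
  choose lt hlt using h1
  set B := c.den.primeFactors with hB
  have hqp : ∀ q ∈ B, (q : ZMod p) ≠ 0 := by
    intro q hq h
    rw [ZMod.natCast_eq_zero_iff] at h
    have hq' := Nat.prime_of_mem_primeFactors hq
    rw [(Nat.prime_dvd_prime_iff_eq hp.out hq').mp h] at hpc
    exact hpc (Nat.dvd_of_mem_primeFactors hq)
  refine ⟨fun l => ∏ q ∈ B with lt q = l, (q : ZMod p) ^ e q, B.image lt, ?_,
    Finset.card_image_le, ?_, ?_, ?_⟩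
  · intro l hl
    obtain ⟨q, hq, rfl⟩ := Finset.mem_image.mp hl
    exact (hlt q hq).1
  · intro l
    apply Finset.prod_ne_zero_iff.mpr
    intro q hq
    exact pow_ne_zero _ (hqp q (Finset.mem_filter.mp hq).1)
  · intro l hl
    apply Finset.prod_eq_one
    intro q hq
    exfalso
    obtain ⟨hq1, hq2⟩ := Finset.mem_filter.mp hq
    exact hl (Finset.mem_image.mpr ⟨q, hq1, hq2⟩)
  · intro i j hij hjn
    have hne : ¬ i ≡ j [MOD n] := by
      intro h
      have := Nat.ModEq.eq_of_lt_of_lt h (by omega) hjn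
      omega
    have hmaps : ∀ q ∈ B, lt q ∈ range L := fun q hq => Finset.mem_range.mpr (hlt q hq).1
    have h2 : (∏ l ∈ range L, ∏ q ∈ B with lt q = l, (q : ZMod p) ^ e q) =
        ((∏ q ∈ B, q ^ e q : ℕ) : ZMod p) := by
      rw [Finset.prod_fiberwise_of_maps_to hmaps]
      push_cast
      rfl
    have h3 : (∏ l ∈ range L, (∏ q ∈ B with lt q = l, (q : ZMod p) ^ e q) ^ T l i j) =
        ((∏ q ∈ B, q ^ (e q * mu (w q) n i j) : ℕ) : ZMod p) := by
      have h4 : ∀ l ∈ range L, (∏ q ∈ B with lt q = l, (q : ZMod p) ^ e q) ^ T l i j =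
          ∏ q ∈ B with lt q = l, (q : ZMod p) ^ (e q * mu (w q) n i j) := by
        intro l _
        rw [← Finset.prod_pow]
        apply Finset.prod_congr rfl
        intro q hq
        obtain ⟨hq1, hq2⟩ := Finset.mem_filter.mp hq
        rw [(hlt q hq1).2 i j hij hjn, hq2, pow_mul]
      rw [Finset.prod_congr rfl h4, Finset.prod_fiberwise_of_maps_to hmaps]
      push_cast
      rfl
    rw [h2, h3]
    have h5 := hglob i j hne
    have h6 : ((X i + X j) * ((∏ q ∈ B, q ^ e q : ℕ) : ℤ_[p])) ^ 2 =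
        ((∏ q ∈ B, q ^ (e q * mu (w q) n i j) : ℕ) : ℤ_[p]) ^ 2 := by
      apply Subtype.ext
      have h7 : ((((x i + x j) * ((∏ q ∈ B, q ^ e q : ℕ) : ℚ)) ^ 2 : ℚ) : ℚ_[p]) =
        ((((∏ q ∈ B, q ^ (e q * mu (w q) n i j) : ℕ) : ℚ) ^ 2 : ℚ) : ℚ_[p]) := by rw [h5]
      rw [Rat.cast_pow, Rat.cast_mul, Rat.cast_add, Rat.cast_pow, ← hX, ← hX, Rat.cast_natCast,
        Rat.cast_natCast] at h7
      rw [PadicInt.coe_pow, PadicInt.coe_mul, PadicInt.coe_add, PadicInt.coe_pow,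
        PadicInt.coe_natCast, PadicInt.coe_natCast]
      exact h7
    have h7 := congrArg PadicInt.toZMod h6
    rw [map_pow, map_mul, map_add, map_pow, map_natCast, map_natCast] at h7
    exact h7

end padic

end Pool.Agent.W2helper83.FP
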