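import Mathlib
import Pool.Agent.W2helper83.FP.Good

/-!
The possible lengths of a cycle with good reduction at a small prime.
-/

set_option autoImplicit false

namespace Pool.Agent.W2helper83.FP

open Finset

/-- iterate until `stop`, then test -/
def scan (nxt : ℕ × ℕ → ℕ × ℕ) (stop : ℕ × ℕ → Bool) (test : ℕ → ℕ × ℕ → Bool) :
    ℕ → ℕ → ℕ × ℕ → Bool
  | 0, _, _ => true
  | fuel + 1, i, s =>
    if stop s then test i s else scan nxt stop test fuel (i + 1) (nxt s)

theorem scan_sound {nxt : ℕ × ℕ → ℕ × ℕ} {stop : ℕ × ℕ → Bool} {test : ℕ → ℕ × ℕ → Bool}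
    {S : ℕ → ℕ × ℕ} (hS : ∀ i, S (i + 1) = nxt (S i)) (fuel : ℕ) : ∀ (i j : ℕ),
      scan nxt stop test fuel i (S i) = true → i ≤ j → j < i + fuel → stop (S j) = true →
      (∀ i', i ≤ i' → i' < j → stop (S i') = false) → test j (S j) = true := by
  induction fuel with
  | zero => intro i j _ h1 h2; omega
  | succ fuel ih =>
    intro i j h hij hj hst hmin
    rw [scan] at h
    rcases Nat.eq_or_lt_of_le hij with rfl | hlt
    · rwa [if_pos hst] at h
    · rw [if_neg (by rw [hmin i le_rfl hlt]; exact Bool.false_ne_true), ← hS] at h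
      exact ih (i + 1) j h hlt (by omega) hst (fun i' h1 h2 => hmin i' (by omega) h2)

/-- the test of one residue class of parameters and points -/
def chk1 (p : ℕ) (P : ℕ → Bool) (k z : ℕ) : Bool :=
  scan (fun s => ((s.1 * s.1 + k) % p, s.2 * (2 * s.1) % p)) (fun s => s.1 == z)
    (fun m s => P m && (s.2 == 0 ||
      scan (fun t => (t.1 * s.2 % p, 0)) (fun t => t.1 == 1) (fun r _ => P (m * r)) p 1
        (s.2 % p, 0)) && (p != 3 || s.2 != 1 || P (3 * m)))
    p 1 ((z * z + k) % p, 2 * z % p)

/-- the test of all the residue classes -/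
def chk (p : ℕ) (L : List ℕ) : Bool :=
  (List.range p).all fun k => (List.range p).all fun z => chk1 p (fun m => L.contains m) k z

section padic

variable {c : ℚ} {x : ℕ → ℚ} {n p : ℕ} [hp : Fact p.Prime]

/-- the test of a residue class is correct -/
theorem chk1_sound {X : ℕ → ℤ_[p]} {K : ℤ_[p]} (hX : ∀ i, X (i + 1) = X i ^ 2 + K)
    (hinj : ∀ i j, X i = X j ↔ i ≡ j [MOD n]) (hn : 0 < n) (P : ℕ → Bool)
    (h1 : chk1 p P (PadicInt.toZMod K).val (PadicInt.toZMod (X 0)).val = true) : P n = true := by
  have hp1 : 1 < p := hp.out.one_lt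
  set y : ℕ → ZMod p := fun i => PadicInt.toZMod (X i) with hy
  set k : ZMod p := PadicInt.toZMod K with hk
  have hystep : ∀ i, y (i + 1) = y i ^ 2 + k := by
    intro i
    simp only [hy, hk]
    rw [hX, map_add, map_pow]
  have hyn : y n = y 0 := by
    simp only [hy]
    rw [(hinj n 0).mpr (by simp [Nat.ModEq])]
  have hiter : ∀ i j, y (i + j) = (fun z : ZMod p => z ^ 2 + k)^[j] (y i) :=
    fun i j => orbit_iterate hystep j i
  set m := Function.minimalPeriod (fun z : ZMod p => z ^ 2 + k) (y 0) with hm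
  have hpt : Function.IsPeriodicPt (fun z : ZMod p => z ^ 2 + k) n (y 0) := by
    show (fun z : ZMod p => z ^ 2 + k)^[n] (y 0) = y 0
    rw [← hiter 0 n, Nat.zero_add, hyn]
  have hm0 : 0 < m := Function.IsPeriodicPt.minimalPeriod_pos hn hpt
  have hmn : m ∣ n := Function.IsPeriodicPt.minimalPeriod_dvd hpt
  have hym : y m = y 0 := by
    have := Function.iterate_minimalPeriod (f := fun z : ZMod p => z ^ 2 + k) (x := y 0)
    rw [← hm, ← hiter 0 m, Nat.zero_add] at this
    exact this
  have hmin : ∀ i, 0 < i → i < m → y i ≠ y 0 := by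
    intro i h1 h2 h3
    rw [← Nat.zero_add i, hiter 0 i] at h3
    have h4 : Function.IsPeriodicPt (fun z : ZMod p => z ^ 2 + k) i (y 0) := h3
    have := Function.IsPeriodicPt.minimalPeriod_le h1 h4
    omega
  have hmp : m ≤ p := by
    have hin : Set.InjOn y (Set.Iio m) := by
      have h1 := Function.iterate_injOn_Iio_minimalPeriod
        (f := fun z : ZMod p => z ^ 2 + k) (x := y 0)
      intro a ha b hb hab
      apply h1 ha hb
      show (fun z : ZMod p => z ^ 2 + k)^[a] (y 0) = (fun z : ZMod p => z ^ 2 + k)^[b] (y 0)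
      rw [← hiter 0 a, ← hiter 0 b, Nat.zero_add, Nat.zero_add, hab]
    have h2 : ((Finset.range m).image y).card = m := by
      rw [Finset.card_image_of_injOn (by simpa using hin), Finset.card_range]
    have h3 := Finset.card_le_univ ((Finset.range m).image y)
    rw [h2, ZMod.card] at h3
    exact h3
  -- the values
  have hkl : k.val < p := ZMod.val_lt k
  have hzl : (y 0).val < p := ZMod.val_lt (y 0)
  have hYstep : ∀ i, (y (i + 1)).val = ((y i).val * (y i).val + k.val) % p := by
    intro i
    rw [hystep, ZMod.val_add, sq, ZMod.val_mul, Nat.mod_add_mod]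
  set lamf : ℕ → ZMod p := fun j => ∏ t ∈ range j, (2 * y t) with hlamf
  have h2v : ∀ a : ZMod p, (2 * a).val = 2 * a.val % p := by
    intro a
    rw [ZMod.val_mul]
    have : (2 : ZMod p).val = 2 % p := by
      have := ZMod.val_natCast p 2
      simpa using this
    rw [this, Nat.mod_mul_mod]
  have hLstep : ∀ i, (lamf (i + 1)).val = (lamf i).val * (2 * (y i).val) % p := by
    intro i
    simp only [hlamf]
    rw [Finset.prod_range_succ, ZMod.val_mul, h2v, Nat.mul_mod_mod]
  have hSi : ((y 1).val, (lamf 1).val) = (((y 0).val * (y 0).val + k.val) % p, 2 * (y 0).val % p) := by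
    rw [← hYstep 0]
    congr 1
    simp only [hlamf, Finset.prod_range_one]
    exact h2v _
  rw [chk1, ← hSi] at h1
  have h2 := scan_sound (S := fun i => ((y i).val, (lamf i).val)) (fun i => by
    simp only [Prod.mk.injEq]
    exact ⟨hYstep i, hLstep i⟩) p 1 m h1 hm0 (by omega) (by
      show ((y m).val == (y 0).val) = true
      rw [hym]
      exact beq_self_eq_true _) (by
      intro i' h3 h4
      simp only [beq_eq_false_iff_ne, ne_eq]
      intro h5
      exact hmin i' h3 h4 (ZMod.val_injective p h5))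
  simp only [Bool.and_eq_true, Bool.or_eq_true, beq_iff_eq, bne_iff_ne, ne_eq] at h2
  obtain ⟨⟨h3, h4⟩, h5⟩ := h2
  rcases period_cases hX hinj hn m hm0 hmn hym with h6 | ⟨h6, h7⟩ | ⟨h6, h7, h8⟩
  · rw [h6]; exact h3
  · rcases h4 with h4 | h4
    · exfalso
      apply h6
      have : lamf m = 0 := (ZMod.val_eq_zero _).mp h4
      exact this
    · have hlm : (∏ t ∈ range m, (2 * PadicInt.toZMod (X t)) : ZMod p) = lamf m := rfl
      rw [hlm] at h7 h6
      have hord : 0 < orderOf (lamf m) :=
        orderOf_pos_iff.mpr (isOfFinOrder_iff_pow_eq_one.mpr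
          ⟨p - 1, by omega, ZMod.pow_card_sub_one_eq_one h6⟩)
      have hle : orderOf (lamf m) ≤ p - 1 :=
        Nat.le_of_dvd (by omega) (orderOf_dvd_of_pow_eq_one (ZMod.pow_card_sub_one_eq_one h6))
      have hone : (1 : ZMod p).val = 1 := ZMod.val_one p
      have h9 := scan_sound (nxt := fun t : ℕ × ℕ => (t.1 * (lamf m).val % p, 0))
        (stop := fun t => t.1 == 1) (test := fun r _ => P (m * r))
        (S := fun r => (((lamf m) ^ r).val, 0)) (fun r => by
        show (((lamf m) ^ (r + 1)).val, 0) = (((lamf m) ^ r).val * (lamf m).val % p, 0)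
        rw [pow_succ, ZMod.val_mul]) p 1 (orderOf (lamf m)) (by
          have h10 : (lamf m).val % p = (lamf m).val := Nat.mod_eq_of_lt (ZMod.val_lt _)
          rw [h10] at h4
          show scan _ _ _ p 1 (((lamf m) ^ 1).val, 0) = true
          rw [pow_one]
          exact h4) hord (by omega) (by simp [pow_orderOf_eq_one, hone]) (by
          intro r' h10 h11
          simp only [beq_eq_false_iff_ne, ne_eq]
          intro h12
          rw [← hone] at h12
          have h13 := ZMod.val_injective p h12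
          have h14 := orderOf_le_of_pow_eq_one (by omega) h13
          omega)
      rw [h7]
      exact h9
  · have hlm : (∏ t ∈ range m, (2 * PadicInt.toZMod (X t)) : ZMod p) = lamf m := rfl
    rw [hlm] at h7
    rcases h5 with (h5 | h5) | h5
    · exact absurd h6 h5
    · exfalso
      apply h5
      show (lamf m).val = 1
      rw [h7]
      exact ZMod.val_one p
    · rw [h8]; exact h5

end padic

theorem Cy.good {c : ℚ} {x : ℕ → ℚ} {n : ℕ} (C : Cy c x n) {p : ℕ} (hp : p.Prime)
    (hpc : ¬ p ∣ c.den) (L : List ℕ) (hL : chk p L = true) : n ∈ L := by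
  have : Fact p.Prime := ⟨hp⟩
  have hn : 0 < n := by have := C.hn; omega
  obtain ⟨X, K, hXc, hX, hinj, hunit⟩ := C.lift hpc
  rw [chk, List.all_eq_true] at hL
  have h2 := hL (PadicInt.toZMod K).val (List.mem_range.mpr (ZMod.val_lt _))
  rw [List.all_eq_true] at h2
  have h3 := chk1_sound hX hinj hn (fun m => L.contains m)
    (h2 (PadicInt.toZMod (X 0)).val (List.mem_range.mpr (ZMod.val_lt _)))
  exact List.contains_iff_mem.mp h3

theorem chk2 : chk 2 [1, 2] = true := by decide
theorem chk3 : chk 3 [1, 2, 3] = true := by decide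
theorem chk5 : chk 5 [1, 2, 3, 4, 8] = true := by decide
theorem chk7 : chk 7 [1, 2, 3, 4, 6] = true := by decide
theorem chk11 : chk 11 [1, 2, 3, 4, 5, 6, 10, 15, 20] = true := by decide +kernel
theorem chk13 : chk 13 [1, 2, 3, 4, 5, 6, 8, 12, 24, 36] = true := by decide +kernel
theorem chk17 : chk 17 [1, 2, 3, 4, 5, 6, 8, 16, 24, 32, 48, 64, 80, 96] = true := by decide +kernel
theorem chk19 : chk 19 [1, 2, 3, 4, 5, 6, 7, 9, 12, 18, 36, 54, 72, 108] = true := by decide +kernel
theorem chk23 : chk 23 [1, 2, 3, 4, 5, 6, 10, 11, 22, 33, 44, 55, 66, 110] = true := by decide +kernel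

end Pool.Agent.W2helper83.FP
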