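import Mathlib
import Pool.Agent.W2helper83.FP.NP
import Pool.Agent.W2helper83.FP.Global

/-!
A finite test which excludes rational cycles of `x ^ 2 + c` of a given length, if the denominator of
`c` has few prime factors and is prime to an auxiliary prime.
-/

set_option autoImplicit false

namespace Pool.Agent.W2helper83.FP

open Finset

/-- every set of at most `b` letters below `l` is contained in one of the masks -/
def cover : ℕ → List ℕ → ℕ → Bool
  | 0, Ks, _ => !Ks.isEmpty
  | _ + 1, Ks, 0 => !Ks.isEmpty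
  | l + 1, Ks, b + 1 => cover l Ks (b + 1) && cover l (Ks.filter fun K => K.testBit l) b

theorem exists_mem_of_not_isEmpty {Ks : List ℕ} (h : (!Ks.isEmpty) = true) : ∃ K, K ∈ Ks := by
  cases Ks with
  | nil => simp at h
  | cons a u => exact ⟨a, List.mem_cons_self⟩

theorem cover_sound : ∀ (l : ℕ) (Ks : List ℕ) (b : ℕ), cover l Ks b = true → ∀ E : Finset ℕ,
    (∀ i ∈ E, i < l) → E.card ≤ b → ∃ K ∈ Ks, ∀ i ∈ E, K.testBit i = true := by
  intro l
  induction l with
  | zero =>
    intro Ks b h E hE _
    rw [cover] at h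
    obtain ⟨K, hK⟩ := exists_mem_of_not_isEmpty h
    exact ⟨K, hK, fun i hi => absurd (hE i hi) (Nat.not_lt_zero i)⟩
  | succ l ih =>
    intro Ks b h E hE hc
    cases b with
    | zero =>
      rw [cover] at h
      obtain ⟨K, hK⟩ := exists_mem_of_not_isEmpty h
      have hE0 : E = ∅ := Finset.card_eq_zero.mp (by omega)
      subst hE0
      exact ⟨K, hK, fun i hi => absurd hi (Finset.notMem_empty i)⟩
    | succ b =>
      rw [cover, Bool.and_eq_true] at h
      by_cases hl : l ∈ E
      · obtain ⟨K, hK, hKE⟩ := ih _ b h.2 (E.erase l) (by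
          intro i hi
          obtain ⟨h1, h2⟩ := Finset.mem_erase.mp hi
          have := hE i h2
          omega) (by rw [Finset.card_erase_of_mem hl]; omega)
        rw [List.mem_filter] at hK
        refine ⟨K, hK.1, ?_⟩
        intro i hi
        by_cases hil : i = l
        · rw [hil]; exact hK.2
        · exact hKE i (Finset.mem_erase.mpr ⟨hil, hi⟩)
      · refine ih _ (b + 1) h.1 E ?_ hc
        intro i hi
        have := hE i hi
        have : i ≠ l := fun h2 => hl (h2 ▸ hi)
        omega

/-- enumeration of the sets of at most `b` letters below `l` with a given symmetric difference of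
masks; the bits of `T1` and `T2` mark the symmetric differences of at most one and two letters -/
def en (R : ℕ) (mk : ℕ → ℕ) (L T1 T2 : ℕ) : ℕ → ℕ → List ℕ → ℕ → Bool
  | 0, t, Ks, b => t % 2 ^ R != 0 || cover L Ks b
  | _ + 1, t, Ks, 0 => t % 2 ^ R != 0 || cover L Ks 0
  | l + 1, t, Ks, b + 1 => (b == 1 && !T2.testBit (t % 2 ^ R)) ||
      (b == 0 && !T1.testBit (t % 2 ^ R)) ||
      (en R mk L T1 T2 l t Ks (b + 1) &&
        en R mk L T1 T2 l (t ^^^ mk l) (Ks.filter fun K => K.testBit l) b)

/-- the test of the tables `T1` and `T2` -/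
def tabOK (R : ℕ) (mk : ℕ → ℕ) (L T1 T2 : ℕ) : Bool :=
  T1.testBit 0 && T2.testBit 0 && (List.range L).all fun a => T1.testBit (mk a % 2 ^ R) &&
    T2.testBit (mk a % 2 ^ R) && (List.range L).all fun b => T2.testBit ((mk a ^^^ mk b) % 2 ^ R)

/-- exclusive or of a family -/
def xf (o f : ℕ → Bool) : ℕ → Bool
  | 0 => false
  | l + 1 => xor (xf o f l) (o l && f l)

theorem xf_false {o f : ℕ → Bool} : ∀ {l : ℕ}, (∀ l' < l, o l' = false) → xf o f l = false := by
  intro l
  induction l with
  | zero => intro _; rfl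
  | succ l ih =>
    intro h
    rw [xf, ih (fun l' hl' => h l' (by omega)), h l (by omega)]
    rfl

theorem xf_one {o : ℕ → Bool} : ∀ {l : ℕ} {S : Finset ℕ}, (∀ l' < l, o l' = true → l' ∈ S) →
    S.card ≤ 1 → (∀ f, xf o f l = false) ∨ ∃ a < l, ∀ f, xf o f l = f a := by
  intro l
  induction l with
  | zero => intro S _ _; left; intro f; rfl
  | succ l ih =>
    intro S hS hc
    by_cases ho : o l = true
    · right
      refine ⟨l, Nat.lt_succ_self l, ?_⟩
      intro f
      have hl := hS l (Nat.lt_succ_self l) ho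
      have h1 : S.erase l = ∅ := by
        rw [← Finset.card_eq_zero, Finset.card_erase_of_mem hl]
        omega
      rw [xf, ho, xf_false]
      · simp
      · intro l' hl'
        by_contra h2
        rw [Bool.not_eq_false] at h2
        have h3 : l' ∈ S.erase l := Finset.mem_erase.mpr ⟨by omega, hS l' (by omega) h2⟩
        rw [h1] at h3
        exact Finset.notMem_empty _ h3
    · rw [Bool.not_eq_true] at ho
      have h1 : ∀ f, xf o f (l + 1) = xf o f l := by
        intro f
        rw [xf, ho]
        simp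
      rcases ih (fun l' hl' => hS l' (by omega)) hc with h2 | ⟨a, ha, h2⟩
      · left; intro f; rw [h1, h2]
      · right; exact ⟨a, by omega, fun f => by rw [h1, h2]⟩

theorem xf_two {o : ℕ → Bool} : ∀ {l : ℕ} {S : Finset ℕ}, (∀ l' < l, o l' = true → l' ∈ S) →
    S.card ≤ 2 → (∀ f, xf o f l = false) ∨ (∃ a < l, ∀ f, xf o f l = f a) ∨
      ∃ a < l, ∃ b < l, ∀ f, xf o f l = xor (f a) (f b) := by
  intro l
  induction l with
  | zero => intro S _ _; left; intro f; rfl
  | succ l ih =>
    intro S hS hc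
    by_cases ho : o l = true
    · have hl := hS l (Nat.lt_succ_self l) ho
      have h0 : ∀ f, xf o f (l + 1) = xor (xf o f l) (f l) := by
        intro f
        rw [xf, ho]
        simp
      rcases xf_one (o := o) (l := l) (S := S.erase l)
        (fun l' hl' h2 => Finset.mem_erase.mpr ⟨by omega, hS l' (by omega) h2⟩)
        (by rw [Finset.card_erase_of_mem hl]; omega) with h1 | ⟨a, ha, h1⟩
      · right; left
        exact ⟨l, Nat.lt_succ_self l, fun f => by rw [h0, h1]; simp⟩
      · right; right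
        exact ⟨a, by omega, l, Nat.lt_succ_self l, fun f => by rw [h0, h1]⟩
    · rw [Bool.not_eq_true] at ho
      have h1 : ∀ f, xf o f (l + 1) = xf o f l := by
        intro f
        rw [xf, ho]
        simp
      rcases ih (fun l' hl' => hS l' (by omega)) hc with h2 | ⟨a, ha, h2⟩ | ⟨a, ha, b, hb, h2⟩
      · left; intro f; rw [h1, h2]
      · right; left; exact ⟨a, by omega, fun f => by rw [h1, h2]⟩
      · right; right; exact ⟨a, by omega, b, by omega, fun f => by rw [h1, h2]⟩

theorem mod_two_pow_eq {t u R : ℕ} (h : ∀ r < R, t.testBit r = u.testBit r) :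
    t % 2 ^ R = u % 2 ^ R := by
  apply Nat.eq_of_testBit_eq
  intro i
  rw [Nat.testBit_mod_two_pow, Nat.testBit_mod_two_pow]
  by_cases hi : i < R
  · rw [h i hi]
  · simp [hi]

theorem mod_two_pow_eq_zero {t R : ℕ} (h : ∀ r < R, t.testBit r = false) : t % 2 ^ R = 0 := by
  rw [mod_two_pow_eq (u := 0) (fun r hr => by rw [h r hr, Nat.zero_testBit]), Nat.zero_mod]

theorem en_sound {R L T1 T2 : ℕ} {mk : ℕ → ℕ} {o : ℕ → Bool} (hT : tabOK R mk L T1 T2 = true) :
    ∀ (l t : ℕ) (Ks : List ℕ) (b : ℕ), l ≤ L →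
    en R mk L T1 T2 l t Ks b = true → ∀ S : Finset ℕ, (∀ i ∈ S, i < L) → S.card ≤ b →
    (∀ l' < l, o l' = true → l' ∈ S) →
    (∀ r < R, t.testBit r = xf o (fun l' => (mk l').testBit r) l) →
    ∃ K ∈ Ks, ∀ i ∈ S, K.testBit i = true := by
  rw [tabOK, Bool.and_eq_true, Bool.and_eq_true, List.all_eq_true] at hT
  obtain ⟨⟨hT1, hT2⟩, hT3⟩ := hT
  intro l
  induction l with
  | zero =>
    intro t Ks b _ h S hS hc _ ht
    rw [en] at h
    have h1 : t % 2 ^ R = 0 := mod_two_pow_eq_zero fun r hr => by rw [ht r hr, xf]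
    rw [h1] at h
    exact cover_sound L Ks b (by simpa using h) S hS hc
  | succ l ih =>
    intro t Ks b hlL h S hS hc ho ht
    cases b with
    | zero =>
      rw [en] at h
      have hE0 : S = ∅ := Finset.card_eq_zero.mp (by omega)
      subst hE0
      have h1 : t % 2 ^ R = 0 := mod_two_pow_eq_zero fun r hr => by
        rw [ht r hr]
        apply xf_false
        intro l' hl'
        by_contra h2
        rw [Bool.not_eq_false] at h2
        exact Finset.notMem_empty _ (ho l' hl' h2)
      rw [h1] at h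
      exact cover_sound L Ks 0 (by simpa using h) ∅ hS hc
    | succ b =>
      have hrec : (en R mk L T1 T2 l t Ks (b + 1) &&
          en R mk L T1 T2 l (t ^^^ mk l) (Ks.filter fun K => K.testBit l) b) = true := by
        rw [en, Bool.or_eq_true, Bool.or_eq_true, Bool.and_eq_true, Bool.and_eq_true] at h
        rcases h with (⟨h1, h2⟩ | ⟨h1, h2⟩) | h
        · exfalso
          rw [beq_iff_eq] at h1
          subst h1
          have h3 : T2.testBit (t % 2 ^ R) = true := by
            rcases xf_two ho hc with h4 | ⟨a, ha, h4⟩ | ⟨a, ha, a', ha', h4⟩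
            · rw [mod_two_pow_eq_zero fun r hr => by rw [ht r hr, h4]]
              exact hT2
            · rw [mod_two_pow_eq (u := mk a) fun r hr => by rw [ht r hr, h4]]
              have h5 := hT3 a (List.mem_range.mpr (by omega))
              rw [Bool.and_eq_true, Bool.and_eq_true] at h5
              exact h5.1.2
            · rw [mod_two_pow_eq (u := mk a ^^^ mk a') fun r hr => by
                rw [ht r hr, h4, Nat.testBit_xor]]
              have h5 := hT3 a (List.mem_range.mpr (by omega))
              rw [Bool.and_eq_true, Bool.and_eq_true, List.all_eq_true] at h5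
              exact h5.2 a' (List.mem_range.mpr (by omega))
          rw [h3] at h2
          simp at h2
        · exfalso
          rw [beq_iff_eq] at h1
          subst h1
          have h3 : T1.testBit (t % 2 ^ R) = true := by
            rcases xf_one ho hc with h4 | ⟨a, ha, h4⟩
            · rw [mod_two_pow_eq_zero fun r hr => by rw [ht r hr, h4]]
              exact hT1
            · rw [mod_two_pow_eq (u := mk a) fun r hr => by rw [ht r hr, h4]]
              have h5 := hT3 a (List.mem_range.mpr (by omega))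
              rw [Bool.and_eq_true, Bool.and_eq_true] at h5
              exact h5.1.1
          rw [h3] at h2
          simp at h2
        · exact h
      rw [Bool.and_eq_true] at hrec
      by_cases hl : o l = true
      · have hlS : l ∈ S := ho l (by omega) hl
        obtain ⟨K, hK, hKS⟩ := ih _ _ b (by omega) hrec.2 (S.erase l)
          (fun i hi => hS i (Finset.mem_of_mem_erase hi))
          (by rw [Finset.card_erase_of_mem hlS]; omega)
          (fun l' hl' h2 => Finset.mem_erase.mpr ⟨by omega, ho l' (by omega) h2⟩)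
          (by
            intro r hr
            rw [Nat.testBit_xor, ht r hr, xf, hl]
            simp)
        rw [List.mem_filter] at hK
        refine ⟨K, hK.1, ?_⟩
        intro i hi
        by_cases hil : i = l
        · rw [hil]; exact hK.2
        · exact hKS i (Finset.mem_erase.mpr ⟨hil, hi⟩)
      · rw [Bool.not_eq_true] at hl
        refine ih t Ks (b + 1) (by omega) hrec.1 S hS hc (fun l' hl' => ho l' (by omega)) ?_
        intro r hr
        rw [ht r hr, xf, hl]
        simp

/-- scalar product of lists -/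
def dot : List ℕ → List ℕ → ℕ
  | a :: u, b :: v => a * b + dot u v
  | _, _ => 0

theorem dot_eq : ∀ (u v : List ℕ) (R : ℕ), u.length ≤ R →
    dot u v = ∑ r ∈ range R, u.getD r 0 * v.getD r 0 := by
  intro u
  induction u with
  | nil => intro v R _; simp [dot]
  | cons a u ih =>
    intro v R hR
    cases v with
    | nil => simp [dot]
    | cons b v =>
      obtain ⟨R', rfl⟩ : ∃ R', R = R' + 1 := ⟨R - 1, by simp at hR; omega⟩
      rw [dot, Finset.sum_range_succ', ih v R' (by simpa using hR)]
      simp [Nat.add_comm]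

theorem sum_eq : ∀ (u : List ℕ) (R : ℕ), u.length ≤ R → u.sum = ∑ r ∈ range R, u.getD r 0 := by
  intro u
  induction u with
  | nil => intro R _; simp
  | cons a u ih =>
    intro R hR
    obtain ⟨R', rfl⟩ : ∃ R', R = R' + 1 := ⟨R - 1, by simp at hR; omega⟩
    rw [List.sum_cons, Finset.sum_range_succ', ih R' (by simpa using hR)]
    simp [Nat.add_comm]

/-- product of powers modulo `p` -/
def ppow (p : ℕ) : List ℕ → List ℕ → ℕ
  | a :: u, s :: v => s ^ (2 * a) * ppow p u v % p
  | _, _ => 1

theorem ppow_eq {p : ℕ} : ∀ (u v : List ℕ) (R : ℕ), u.length ≤ R →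
    ((ppow p u v : ℕ) : ZMod p) = ∏ r ∈ range R, ((v.getD r 1 : ℕ) : ZMod p) ^ (2 * u.getD r 0) := by
  intro u
  induction u with
  | nil => intro v R _; simp [ppow]
  | cons a u ih =>
    intro v R hR
    cases v with
    | nil => simp [ppow]
    | cons b v =>
      obtain ⟨R', rfl⟩ : ∃ R', R = R' + 1 := ⟨R - 1, by simp at hR; omega⟩
      rw [ppow, Finset.prod_range_succ', ZMod.natCast_mod, Nat.cast_mul, ih v R' (by simpa using hR)]
      simp [mul_comm]

/-- the mask of the non-residues -/
def par (p h : ℕ) : List ℕ → ℕ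
  | [] => 0
  | s :: v => (if s ^ h % p = 1 then 0 else 1) + 2 * par p h v

theorem par_testBit {p h : ℕ} : ∀ (v : List ℕ) (r : ℕ), r < v.length →
    (par p h v).testBit r = !decide ((v.getD r 1) ^ h % p = 1) := by
  intro v
  induction v with
  | nil => intro r hr; simp at hr
  | cons s v ih =>
    intro r hr
    cases r with
    | zero =>
      rw [par, Nat.testBit_zero]
      by_cases h1 : s ^ h % p = 1
      · simp [h1]
      · simp [h1, Nat.add_mod]
    | succ r =>
      have h2 : ((if s ^ h % p = 1 then 0 else 1) + 2 * par p h v) / 2 = par p h v := by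
        by_cases h1 : s ^ h % p = 1
        · simp [h1]
        · rw [if_neg h1]; omega
      rw [par, Nat.testBit_succ, h2, ih r (by simpa using hr)]
      simp

/-- the test of one certificate -/
def certOK (p h L : ℕ) (tb : List (List ℕ)) (sl : List ℕ) (C : ℕ × List ℕ) : Bool :=
  ((List.range L).all fun l => !C.1.testBit l || dot C.2 (tb.getD l []) % h == C.2.sum % h) &&
    ppow p C.2 sl % p != 1

/-- the test of one residue class of cycles -/
def infeas (p h L R : ℕ) (tb : List (List ℕ)) (mk : ℕ → ℕ) (T1 T2 b : ℕ) (sl : List ℕ)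
    (W : List (ℕ × List ℕ)) : Bool :=
  (W.all fun C => decide (C.2.length ≤ R) && certOK p h L tb sl C) &&
    en R mk L T1 T2 L (par p h sl) (W.map Prod.fst) b

section sound

variable {p h L R : ℕ} [hp : Fact p.Prime]

theorem pow_two_mul_eq {P : ZMod p} (hph : p = 2 * h + 1) (hP : P ≠ 0) {a b : ℕ}
    (hab : a % h = b % h) : P ^ (2 * a) = P ^ (2 * b) := by
  have h1 : (P ^ 2) ^ h = 1 := by
    rw [← pow_mul]
    have := ZMod.pow_card_sub_one_eq_one hP
    rwa [show p - 1 = 2 * h by omega] at this
  rw [pow_mul, pow_mul, pow_eq_pow_mod a h1, pow_eq_pow_mod b h1, hab]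

theorem cert_sound (hph : p = 2 * h + 1) {s P : ℕ → ZMod p} {mu' : ℕ → ℕ → ℕ} {S : Finset ℕ}
    {w : ℕ → ℕ} (hP0 : ∀ l, P l ≠ 0) (hP1 : ∀ l, l ∉ S → P l = 1)
    (hrel : ∀ r < R, (s r * ∏ l ∈ range L, P l) ^ 2 = (∏ l ∈ range L, P l ^ mu' l r) ^ 2)
    (hw : ∀ l ∈ S, l < L → (∑ r ∈ range R, w r * mu' l r) % h = (∑ r ∈ range R, w r) % h) :
    ∏ r ∈ range R, s r ^ (2 * w r) = 1 := by
  have h1 : ∏ r ∈ range R, ((s r * ∏ l ∈ range L, P l) ^ 2) ^ w r =
      ∏ r ∈ range R, ((∏ l ∈ range L, P l ^ mu' l r) ^ 2) ^ w r := by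
    apply Finset.prod_congr rfl
    intro r hr
    rw [hrel r (Finset.mem_range.mp hr)]
  have h2 : ∏ r ∈ range R, ((s r * ∏ l ∈ range L, P l) ^ 2) ^ w r =
      (∏ r ∈ range R, s r ^ (2 * w r)) * ∏ l ∈ range L, P l ^ (2 * ∑ r ∈ range R, w r) := by
    have h3 : ∏ l ∈ range L, P l ^ (2 * ∑ r ∈ range R, w r) =
        ∏ r ∈ range R, (∏ l ∈ range L, P l) ^ (2 * w r) := by
      rw [Finset.prod_pow, Finset.mul_sum, ← Finset.prod_pow_eq_pow_sum]
    rw [h3, ← Finset.prod_mul_distrib]
    apply Finset.prod_congr rfl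
    intro r _
    rw [← pow_mul, mul_pow]
  have h4 : ∏ r ∈ range R, ((∏ l ∈ range L, P l ^ mu' l r) ^ 2) ^ w r =
      ∏ l ∈ range L, P l ^ (2 * ∑ r ∈ range R, w r * mu' l r) := by
    have h5 : ∀ r ∈ range R, ((∏ l ∈ range L, P l ^ mu' l r) ^ 2) ^ w r =
        ∏ l ∈ range L, P l ^ (2 * (w r * mu' l r)) := by
      intro r _
      rw [← pow_mul, ← Finset.prod_pow]
      apply Finset.prod_congr rfl
      intro l _
      rw [← pow_mul]
      congr 1
      ring
    rw [Finset.prod_congr rfl h5, Finset.prod_comm]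
    apply Finset.prod_congr rfl
    intro l _
    rw [Finset.mul_sum, Finset.prod_pow_eq_pow_sum]
  have h6 : ∏ l ∈ range L, P l ^ (2 * ∑ r ∈ range R, w r) =
      ∏ l ∈ range L, P l ^ (2 * ∑ r ∈ range R, w r * mu' l r) := by
    apply Finset.prod_congr rfl
    intro l hl
    by_cases hlS : l ∈ S
    · exact pow_two_mul_eq hph (hP0 l) (hw l hlS (Finset.mem_range.mp hl)).symm
    · rw [hP1 l hlS, one_pow, one_pow]
  have h7 : ∏ l ∈ range L, P l ^ (2 * ∑ r ∈ range R, w r * mu' l r) ≠ 0 :=
    Finset.prod_ne_zero_iff.mpr fun l _ => pow_ne_zero _ (hP0 l)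
  rw [h2, h4, h6] at h1
  exact mul_right_cancel₀ h7 (by rw [h1, one_mul])

/-- the sign of a bit -/
def sgn (b : Bool) : ZMod p := if b then -1 else 1

theorem sgn_xor (a b : Bool) : (sgn (xor a b) : ZMod p) = sgn a * sgn b := by
  cases a <;> cases b <;> simp [sgn]

theorem sgn_inj (hp2 : p ≠ 2) {a b : Bool} (h : (sgn a : ZMod p) = sgn b) : a = b := by
  have : Fact (2 < p) := ⟨by have := hp.out.two_le; omega⟩
  have h1 := ZMod.neg_one_ne_one (n := p)
  cases a <;> cases b <;> simp [sgn] at h ⊢
  · exact h1 h.symm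
  · exact h1 h

theorem sgn_xf (o f : ℕ → Bool) (l : ℕ) :
    (sgn (xf o f l) : ZMod p) = ∏ l' ∈ range l, sgn (o l' && f l') := by
  induction l with
  | zero => simp [xf, sgn]
  | succ l ih => rw [xf, sgn_xor, ih, Finset.prod_range_succ]

theorem pow_h_eq_sgn (hph : p = 2 * h + 1) {a : ZMod p} (ha : a ≠ 0) :
    a ^ h = sgn (!decide (a ^ h = 1)) := by
  have h1 : a ^ h * a ^ h = 1 := by
    rw [← pow_add, ← two_mul]
    have := ZMod.pow_card_sub_one_eq_one ha
    rwa [show p - 1 = 2 * h by omega] at this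
  rcases mul_self_eq_one_iff.mp h1 with h2 | h2
  · simp [sgn, h2]
  · by_cases h3 : a ^ h = 1
    · simp [sgn, h3]
    · simp only [sgn, h3, decide_false, Bool.not_false, if_true]
      exact h2

theorem infeas_sound (hph : p = 2 * h + 1) (hh : 2 ∣ h) (tb : List (List ℕ)) (mk : ℕ → ℕ)
    (hmk : ∀ l < L, ∀ r < R, (mk l).testBit r = decide ((tb.getD l []).getD r 0 % 2 = 0))
    {T1 T2 : ℕ} (hT : tabOK R mk L T1 T2 = true) (b : ℕ)
    (sl : List ℕ) (hsl : sl.length = R) (hsl0 : ∀ r < R, ((sl.getD r 1 : ℕ) : ZMod p) ≠ 0)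
    (W : List (ℕ × List ℕ)) (hW : infeas p h L R tb mk T1 T2 b sl W = true) (P : ℕ → ZMod p)
    (S : Finset ℕ) (hS : ∀ l ∈ S, l < L) (hSc : S.card ≤ b) (hP0 : ∀ l, P l ≠ 0)
    (hP1 : ∀ l, l ∉ S → P l = 1)
    (hrel : ∀ r < R, (((sl.getD r 1 : ℕ) : ZMod p) * ∏ l ∈ range L, P l) ^ 2 =
      (∏ l ∈ range L, P l ^ (tb.getD l []).getD r 0) ^ 2) : False := by
  have hp2 : p ≠ 2 := by omega
  rw [infeas, Bool.and_eq_true, List.all_eq_true] at hW
  obtain ⟨hW1, hW2⟩ := hW
  obtain ⟨g, hg⟩ := hh
  obtain ⟨K, hK, hKS⟩ := en_sound (o := fun l => !decide (P l ^ h = 1)) hT L (par p h sl)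
    (W.map Prod.fst) b le_rfl hW2 S hS hSc (by
      intro l _ ho
      by_contra hl
      rw [hP1 l hl] at ho
      simp at ho) (by
      intro r hr
      apply sgn_inj hp2
      rw [par_testBit sl r (by omega), sgn_xf]
      have h1 : ((sl.getD r 1) ^ h % p = 1) ↔ ((sl.getD r 1 : ℕ) : ZMod p) ^ h = 1 := by
        have h2 : 1 % p = 1 := Nat.mod_eq_of_lt hp.out.one_lt
        generalize sl.getD r 1 = a
        have h3 := ZMod.natCast_eq_natCast_iff' (a ^ h) 1 p
        rw [h2, Nat.cast_pow, Nat.cast_one] at h3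
        exact h3.symm
      have h2 : decide ((sl.getD r 1) ^ h % p = 1) =
          decide (((sl.getD r 1 : ℕ) : ZMod p) ^ h = 1) := decide_eq_decide.mpr h1
      rw [h2, ← pow_h_eq_sgn hph (hsl0 r hr)]
      have h3 : (((sl.getD r 1 : ℕ) : ZMod p) ^ h) * ∏ l ∈ range L, P l ^ h =
          ∏ l ∈ range L, (P l ^ h) ^ (tb.getD l []).getD r 0 := by
        have h4 := congrArg (fun z => z ^ g) (hrel r hr)
        simp only [← pow_mul, ← hg] at h4
        rw [mul_pow, ← Finset.prod_pow, ← Finset.prod_pow] at h4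
        rw [h4]
        apply Finset.prod_congr rfl
        intro l _
        rw [← pow_mul, ← pow_mul, mul_comm]
      have h5 : ∀ l, P l ^ h * P l ^ h = 1 := by
        intro l
        rw [← pow_add, ← two_mul]
        have := ZMod.pow_card_sub_one_eq_one (hP0 l)
        rwa [show p - 1 = 2 * h by omega] at this
      have h6 : (∏ l ∈ range L, P l ^ h) * ∏ l ∈ range L, P l ^ h = 1 := by
        rw [← Finset.prod_mul_distrib]
        apply Finset.prod_eq_one
        intro l _
        exact h5 l
      have h7 : (((sl.getD r 1 : ℕ) : ZMod p) ^ h) =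
          (∏ l ∈ range L, (P l ^ h) ^ (tb.getD l []).getD r 0) * ∏ l ∈ range L, P l ^ h := by
        rw [← h3, mul_assoc, h6, mul_one]
      rw [h7, ← Finset.prod_mul_distrib]
      apply Finset.prod_congr rfl
      intro l hl
      rw [← pow_succ, hmk l (Finset.mem_range.mp hl) r hr]
      generalize (tb.getD l []).getD r 0 = a
      by_cases h8 : P l ^ h = 1
      · simp [h8, sgn]
      · have h9 : P l ^ h = -1 := (mul_self_eq_one_iff.mp (h5 l)).resolve_left h8
        have h10 : decide (P l ^ h = 1) = false := decide_eq_false h8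
        rw [h10, h9]
        by_cases h11 : a % 2 = 0
        · have h12 : Odd (a + 1) := by
            rw [Nat.odd_iff]; omega
          rw [h12.neg_one_pow]
          simp [sgn, h11]
        · have h12 : Even (a + 1) := by
            rw [Nat.even_iff]; omega
          rw [h12.neg_one_pow]
          simp [sgn, h11])
  obtain ⟨C, hC, rfl⟩ := List.mem_map.mp hK
  have h1 := hW1 C hC
  rw [Bool.and_eq_true, decide_eq_true_eq, certOK, Bool.and_eq_true, List.all_eq_true] at h1
  obtain ⟨h2, h3, h4⟩ := h1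
  have h5 := cert_sound (R := R) (L := L) hph (s := fun r => ((sl.getD r 1 : ℕ) : ZMod p)) (P := P)
    (mu' := fun l r => (tb.getD l []).getD r 0) (S := S) (w := fun r => C.2.getD r 0) hP0 hP1 hrel
    (by
      intro l hl hlL
      have h6 := h3 l (List.mem_range.mpr hlL)
      rw [hKS l hl] at h6
      simp only [Bool.not_true, Bool.false_or, beq_iff_eq] at h6
      rw [dot_eq _ _ R h2, sum_eq _ R h2] at h6
      exact h6)
  rw [← ppow_eq C.2 sl R h2] at h5
  have h6 : ppow p C.2 sl % p = 1 := by
    have h7 : (1 : ℕ) = 1 % p := (Nat.mod_eq_of_lt hp.out.one_lt).symm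
    rw [h7]
    apply (ZMod.natCast_eq_natCast_iff' _ _ _).mp
    rw [h5, Nat.cast_one]
  rw [h6] at h4
  simp at h4

end sound

end Pool.Agent.W2helper83.FP
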