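import Mathlib
import Pool.Agent.W2helper83.FP.Check

/-!
The exclusion of cycles of a given length by means of one auxiliary prime.
-/

set_option autoImplicit false

namespace Pool.Agent.W2helper83.FP

open Finset

/-- the periodic word with the bits of a number -/
def wordOf (n W : ℕ) : ℕ → Bool := fun i => W.testBit (i % n)

/-- is the word primitive -/
def prim (n W : ℕ) : Bool :=
  (List.range n).all fun d => d == 0 ||
    (List.range n).any fun i => W.testBit ((i + d) % n) != W.testBit (i % n)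

/-- the test of the tables -/
def datOK (n L R : ℕ) (ws : List ℕ) (pr : List (ℕ × ℕ)) (tb : List (List ℕ)) (mk : ℕ → ℕ) : Bool :=
  ((List.range (2 ^ n)).all fun W => W.testBit 0 || !prim n W ||
    (List.range L).any fun l => ws.getD l 0 == W) &&
  ((List.range L).all fun l => (List.range R).all fun r =>
    (tb.getD l []).getD r 0 ==
      mu (wordOf n (ws.getD l 0)) n (pr.getD r (0, 0)).1 (pr.getD r (0, 0)).2 &&
    (mk l).testBit r == decide ((tb.getD l []).getD r 0 % 2 = 0)) &&
  ((List.range R).all fun r => decide ((pr.getD r (0, 0)).1 < (pr.getD r (0, 0)).2) &&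
    decide ((pr.getD r (0, 0)).2 < n)) && pr.length == R

/-- iteration modulo `p` -/
def it (p k z : ℕ) : ℕ → ℕ
  | 0 => z
  | i + 1 => (it p k z i * it p k z i + k) % p

/-- the list of the sums -/
def sl (p k z : ℕ) (pr : List (ℕ × ℕ)) : List ℕ :=
  pr.map fun a => (it p k z a.1 + it p k z a.2) % p

/-- every residue class of cycles is excluded or occurs in the list -/
def confOK (p n : ℕ) (pr : List (ℕ × ℕ)) (E : List (ℕ × ℕ × List (ℕ × List ℕ))) : Bool :=
  (List.range p).all fun k => (List.range p).all fun z =>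
    it p k z n != z || chk1 p (fun m => m != n) k z || ((sl p k z pr).any fun s => s == 0) ||
      E.any fun e => e.1 == k && (List.range n).any fun t => it p k z t == e.2.1

/-- the test of the certificates -/
def certsOK (p h L R : ℕ) (pr : List (ℕ × ℕ)) (tb : List (List ℕ)) (mk : ℕ → ℕ) (T1 T2 b : ℕ)
    (E : List (ℕ × ℕ × List (ℕ × List ℕ))) : Bool :=
  E.all fun e => infeas p h L R tb mk T1 T2 b (sl p e.1 e.2.1 pr) e.2.2

theorem exists_bits (n : ℕ) (w : ℕ → Bool) : ∃ W < 2 ^ n, ∀ i < n, W.testBit i = w i := by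
  induction n generalizing w with
  | zero => exact ⟨0, by norm_num, fun i hi => absurd hi (Nat.not_lt_zero i)⟩
  | succ n ih =>
    obtain ⟨W, hW, hWw⟩ := ih fun i => w (i + 1)
    refine ⟨2 * W + (if w 0 then 1 else 0), ?_, ?_⟩
    · rw [pow_succ]
      split_ifs <;> omega
    · intro i hi
      cases i with
      | zero =>
        rw [Nat.testBit_zero]
        by_cases h : w 0 = true
        · simp [h, Nat.add_mod]
        · rw [Bool.not_eq_true] at h
          simp [h]
      | succ i =>
        have h1 : (2 * W + (if w 0 then 1 else 0)) / 2 = W := by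
          split_ifs <;> omega
        rw [Nat.testBit_succ, h1, hWw i (by omega)]

theorem word_mem {n L R : ℕ} {ws : List ℕ} {pr : List (ℕ × ℕ)} {tb : List (List ℕ)} {mk : ℕ → ℕ}
    (hn : 0 < n) (hD : datOK n L R ws pr tb mk = true) (w : ℕ → Bool) (hw0 : w 0 = false)
    (hw : ∀ i, w (i + n) = w i) (hp : ∀ d, 0 < d → d < n → ∃ i, w (i + d) ≠ w i) :
    ∃ l, l < L ∧ w = wordOf n (ws.getD l 0) := by
  rw [datOK, Bool.and_eq_true, Bool.and_eq_true, Bool.and_eq_true, List.all_eq_true] at hD
  obtain ⟨⟨⟨h1, -⟩, -⟩, -⟩ := hD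
  obtain ⟨W, hW, hWw⟩ := exists_bits n w
  have hmod : ∀ i, w i = w (i % n) := by
    have h3 : ∀ q i, w (i + n * q) = w i := by
      intro q
      induction q with
      | zero => intro i; simp
      | succ q ih => intro i; rw [Nat.mul_succ, ← Nat.add_assoc, hw, ih]
    intro i
    conv_lhs => rw [← Nat.mod_add_div i n]
    rw [h3]
  have hWf : ∀ i, W.testBit (i % n) = w i := by
    intro i
    rw [hWw _ (Nat.mod_lt i hn), ← hmod]
  have h2 := h1 W (List.mem_range.mpr hW)
  have h3 : W.testBit 0 = false := by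
    have := hWf 0
    rw [Nat.zero_mod, hw0] at this
    exact this
  have h4 : prim n W = true := by
    rw [prim, List.all_eq_true]
    intro d hd
    rw [List.mem_range] at hd
    rcases Nat.eq_zero_or_pos d with h5 | h5
    · subst h5; simp
    · obtain ⟨i, hi⟩ := hp d h5 hd
      rw [Bool.or_eq_true]
      right
      rw [List.any_eq_true]
      refine ⟨i % n, List.mem_range.mpr (Nat.mod_lt i hn), ?_⟩
      rw [bne_iff_ne, Nat.mod_add_mod, Nat.mod_mod, hWf, hWf]
      exact hi
  rw [h3, h4] at h2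
  simp only [Bool.not_true, Bool.or_false, Bool.false_or, List.any_eq_true, List.mem_range,
    beq_iff_eq] at h2
  obtain ⟨l, hl, hlW⟩ := h2
  refine ⟨l, hl, ?_⟩
  funext i
  rw [wordOf, hlW, hWf]

variable {c : ℚ} {x : ℕ → ℚ} {n : ℕ}

theorem Cy.rot (C : Cy c x n) (t : ℕ) : Cy c (fun i => x (i + t)) n := by
  refine ⟨C.hn, ?_, ?_⟩
  · intro i
    show x (i + 1 + t) = x (i + t) ^ 2 + c
    rw [show i + 1 + t = i + t + 1 by ring]
    exact C.step _
  · intro i j
    show x (i + t) = x (j + t) ↔ _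
    rw [C.inj]
    constructor
    · intro h; exact Nat.ModEq.add_right_cancel' t h
    · intro h; exact Nat.ModEq.add_right t h

/-- **Exclusion of a length.** -/
theorem Cy.excl (C : Cy c x n) {p h L R b : ℕ} (hp : p.Prime) (hpc : ¬ p ∣ c.den)
    (hb : c.den.primeFactors.card ≤ b) (hph : p = 2 * h + 1) (hh : 2 ∣ h)
    {ws : List ℕ} {pr : List (ℕ × ℕ)} {tb : List (List ℕ)} {mk : ℕ → ℕ}
    (hD : datOK n L R ws pr tb mk = true) {T1 T2 : ℕ} (hT : tabOK R mk L T1 T2 = true)
    {E : List (ℕ × ℕ × List (ℕ × List ℕ))}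
    (hE : confOK p n pr E = true) (hF : certsOK p h L R pr tb mk T1 T2 b E = true) : False := by
  have : Fact p.Prime := ⟨hp⟩
  have hn : 0 < n := by have := C.hn; omega
  have hD0 := hD
  rw [datOK, Bool.and_eq_true, Bool.and_eq_true, Bool.and_eq_true, List.all_eq_true,
    List.all_eq_true, List.all_eq_true] at hD
  obtain ⟨⟨⟨-, hD2⟩, hD3⟩, hD4⟩ := hD
  have hD2' : ∀ l < L, ∀ r < R, (tb.getD l []).getD r 0 =
      mu (wordOf n (ws.getD l 0)) n (pr.getD r (0, 0)).1 (pr.getD r (0, 0)).2 ∧
      (mk l).testBit r = decide ((tb.getD l []).getD r 0 % 2 = 0) := by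
    intro l hl r hr
    have h1 := hD2 l (List.mem_range.mpr hl)
    rw [List.all_eq_true] at h1
    have h2 := h1 r (List.mem_range.mpr hr)
    rw [Bool.and_eq_true, beq_iff_eq, beq_iff_eq] at h2
    exact h2
  have hD3' : ∀ r < R, (pr.getD r (0, 0)).1 < (pr.getD r (0, 0)).2 ∧ (pr.getD r (0, 0)).2 < n := by
    intro r hr
    have h1 := hD3 r (List.mem_range.mpr hr)
    rw [Bool.and_eq_true, decide_eq_true_eq, decide_eq_true_eq] at h1
    exact h1
  have hlen : pr.length = R := by simpa using hD4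
  obtain ⟨X, K, hXc, hX, hinj, hunit⟩ := C.lift hpc
  set k : ZMod p := PadicInt.toZMod K with hk
  set y : ℕ → ZMod p := fun i => PadicInt.toZMod (X i) with hy
  have hystep : ∀ i, y (i + 1) = y i ^ 2 + k := by
    intro i
    simp only [hy, hk]
    rw [hX, map_add, map_pow]
  have hYstep : ∀ i, (y (i + 1)).val = ((y i).val * (y i).val + k.val) % p := by
    intro i
    rw [hystep, ZMod.val_add, sq, ZMod.val_mul, Nat.mod_add_mod]
  have hit : ∀ s i, (y (i + s)).val = it p k.val (y s).val i := by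
    intro s i
    induction i with
    | zero => rw [Nat.zero_add, it]
    | succ i ih => rw [show i + 1 + s = i + s + 1 by ring, hYstep, ih, it]
  have hsum : ∀ i j, ¬ i ≡ j [MOD n] → y i + y j ≠ 0 := by
    intro i j hij h
    have h1 := (hunit i j hij).map (PadicInt.toZMod (p := p))
    rw [map_add] at h1
    exact h1.ne_zero h
  have hsl : ∀ s r, r < R → (((sl p k.val (y s).val pr).getD r 1 : ℕ) : ZMod p) =
      y ((pr.getD r (0, 0)).1 + s) + y ((pr.getD r (0, 0)).2 + s) := by
    intro s r hr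
    have h1 : (sl p k.val (y s).val pr).getD r 1 =
        (it p k.val (y s).val (pr.getD r (0, 0)).1 + it p k.val (y s).val (pr.getD r (0, 0)).2) % p := by
      rw [sl, List.getD_eq_getElem _ _ (by simpa [hlen] using hr), List.getElem_map,
        List.getD_eq_getElem _ _ (by simpa [hlen] using hr)]
    rw [h1, ← hit, ← hit, ZMod.natCast_mod, Nat.cast_add, ZMod.natCast_zmod_val,
      ZMod.natCast_zmod_val]
  have hne : ∀ s r, r < R → (((sl p k.val (y s).val pr).getD r 1 : ℕ) : ZMod p) ≠ 0 := by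
    intro s r hr
    rw [hsl s r hr]
    apply hsum
    intro h1
    have h2 := Nat.ModEq.add_right_cancel' s h1
    obtain ⟨h3, h4⟩ := hD3' r hr
    have := Nat.ModEq.eq_of_lt_of_lt h2 (by omega) h4
    omega
  -- the residue class occurs in the list
  rw [confOK, List.all_eq_true] at hE
  have h1 := hE k.val (List.mem_range.mpr (ZMod.val_lt _))
  rw [List.all_eq_true] at h1
  have h2 := h1 (y 0).val (List.mem_range.mpr (ZMod.val_lt _))
  rw [Bool.or_eq_true, Bool.or_eq_true, Bool.or_eq_true] at h2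
  rcases h2 with ((h2 | h2) | h2) | h2
  · rw [bne_iff_ne] at h2
    apply h2
    rw [← hit 0 n, Nat.add_zero]
    simp only [hy]
    rw [(hinj n 0).mpr (by simp [Nat.ModEq])]
  · have h3 := chk1_sound hX hinj hn (fun m => m != n) h2
    simp at h3
  · rw [List.any_eq_true] at h2
    obtain ⟨s, hs, hs0⟩ := h2
    rw [beq_iff_eq] at hs0
    obtain ⟨r, hr, hrs⟩ := List.getElem_of_mem hs
    have hrR : r < R := by
      rw [sl, List.length_map, hlen] at hr
      exact hr
    apply hne 0 r hrR
    rw [List.getD_eq_getElem _ _ hr, hrs, hs0, Nat.cast_zero]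
  · rw [List.any_eq_true] at h2
    obtain ⟨e, he, hek⟩ := h2
    rw [Bool.and_eq_true, beq_iff_eq, List.any_eq_true] at hek
    obtain ⟨hek1, t, -, ht⟩ := hek
    rw [beq_iff_eq, ← hit 0 t, Nat.add_zero] at ht
    rw [certsOK, List.all_eq_true] at hF
    have hF1 := hF e he
    rw [hek1, ← ht] at hF1
    obtain ⟨P, S, hS, hSc, hP0, hP1, hrel⟩ := (C.rot t).feas hpc L
      (fun l i j => mu (wordOf n (ws.getD l 0)) n i j) (by
        intro w hw0 hw hwp
        obtain ⟨l, hl, hlw⟩ := word_mem hn hD0 w hw0 hw hwp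
        refine ⟨l, hl, fun i j _ _ => ?_⟩
        rw [hlw]) (X := fun i => X (i + t)) (fun i => hXc (i + t))
    refine infeas_sound (p := p) (h := h) (L := L) (R := R) hph hh tb mk
      (fun l hl r hr => (hD2' l hl r hr).2) hT b (sl p k.val (y t).val pr) (by simp [sl, hlen])
      (hne t) e.2.2 hF1 P S hS (hSc.trans hb) hP0 hP1 ?_
    intro r hr
    rw [hsl t r hr]
    have h3 := hrel (pr.getD r (0, 0)).1 (pr.getD r (0, 0)).2 (hD3' r hr).1 (hD3' r hr).2
    have h4 : ∏ l ∈ range L, P l ^ (tb.getD l []).getD r 0 =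
        ∏ l ∈ range L, P l ^ mu (wordOf n (ws.getD l 0)) n (pr.getD r (0, 0)).1
          (pr.getD r (0, 0)).2 := by
      apply Finset.prod_congr rfl
      intro l hl
      rw [(hD2' l (Finset.mem_range.mp hl) r hr).1]
    rw [h4]
    exact h3

end Pool.Agent.W2helper83.FP
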