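import Mathlib
import Pool.Agent.Helper653.CubFermat

/-!
There are no rational cycles of length four of `x ^ 2 + c` (Morton), by Fermat's descents.
-/

set_option autoImplicit false

namespace Pool.Agent.W2helper83.FP

theorem cop_mul_sq {a b c : ℤ} (h : IsCoprime a b) (heq : a * b = c ^ 2) :
    ∃ u : ℤ, a = u ^ 2 ∨ a = -u ^ 2 := Int.sq_of_isCoprime h heq

/-- the case of opposite parity -/
theorem four_odd {a b Y : ℤ} (hab : IsCoprime a b) (hpar : (a + b) % 2 = 1) (ha : a ≠ 0)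
    (hb : b ≠ 0) (h2 : a ^ 2 ≠ b ^ 2)
    (h : (a ^ 2 + b ^ 2) * (a ^ 2 - b ^ 2) * (a ^ 2 + 2 * a * b - b ^ 2) = Y ^ 2) : False := by
  -- a prime dividing two of the factors
  have hodd : ¬ (2 : ℤ) ∣ a + b := by omega
  have key : ∀ q : ℤ, Prime q → ¬ (q ∣ a ∧ q ∣ b) := by
    intro q hq ⟨h3, h4⟩
    exact hq.not_isUnit (hab.isUnit_of_dvd' h3 h4)
  have par2 : ∀ q : ℤ, Prime q → q ∣ 2 → ¬ q ∣ a ^ 2 + b ^ 2 := by
    intro q hq hq2 hq3
    have h5 : (2 : ℤ) ∣ q := by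
      rcases (Int.prime_two.irreducible.dvd_iff).mp hq2 with h | h
      · exact absurd h hq.not_isUnit
      · exact (Associated.dvd h)
    have h6 : (2 : ℤ) ∣ a ^ 2 + b ^ 2 := h5.trans hq3
    have h7 : (2 : ℤ) ∣ (a + b) ^ 2 := by
      have : (a + b) ^ 2 = (a ^ 2 + b ^ 2) + 2 * (a * b) := by ring
      rw [this]
      exact dvd_add h6 ⟨_, rfl⟩
    exact hodd (Int.prime_two.dvd_of_dvd_pow h7)
  have c1 : IsCoprime (a ^ 2 + b ^ 2) (a ^ 2 - b ^ 2) := by
    apply isCoprime_of_prime_dvd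
    · rintro ⟨h3, -⟩
      have : a ^ 2 = 0 := by nlinarith [sq_nonneg a, sq_nonneg b]
      exact ha (pow_eq_zero_iff (two_ne_zero) |>.mp this)
    · intro q hq h3 h4
      have h5 : q ∣ 2 * a ^ 2 := by
        have : 2 * a ^ 2 = (a ^ 2 + b ^ 2) + (a ^ 2 - b ^ 2) := by ring
        rw [this]; exact dvd_add h3 h4
      have h6 : q ∣ 2 * b ^ 2 := by
        have : 2 * b ^ 2 = (a ^ 2 + b ^ 2) - (a ^ 2 - b ^ 2) := by ring
        rw [this]; exact dvd_sub h3 h4
      rcases hq.dvd_or_dvd h5 with h7 | h7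
      · exact par2 q hq h7 h3
      · rcases hq.dvd_or_dvd h6 with h8 | h8
        · exact par2 q hq h8 h3
        · exact key q hq ⟨hq.dvd_of_dvd_pow h7, hq.dvd_of_dvd_pow h8⟩
  have c2 : IsCoprime (a ^ 2 + b ^ 2) (a ^ 2 + 2 * a * b - b ^ 2) := by
    apply isCoprime_of_prime_dvd
    · rintro ⟨h3, -⟩
      have : a ^ 2 = 0 := by nlinarith [sq_nonneg a, sq_nonneg b]
      exact ha (pow_eq_zero_iff (two_ne_zero) |>.mp this)
    · intro q hq h3 h4
      have h5 : q ∣ 2 * (b * (a - b)) := by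
        have : 2 * (b * (a - b)) = (a ^ 2 + 2 * a * b - b ^ 2) - (a ^ 2 + b ^ 2) := by ring
        rw [this]; exact dvd_sub h4 h3
      rcases hq.dvd_or_dvd h5 with h7 | h7
      · exact par2 q hq h7 h3
      · rcases hq.dvd_or_dvd h7 with h8 | h8
        · have h9 : q ∣ a ^ 2 := by
            have : a ^ 2 = (a ^ 2 + b ^ 2) - b * b := by ring
            rw [this]; exact dvd_sub h3 (Dvd.dvd.mul_right h8 _)
          exact key q hq ⟨hq.dvd_of_dvd_pow h9, h8⟩
        · have h9 : q ∣ 2 * b ^ 2 := by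
            have : 2 * b ^ 2 = (a ^ 2 + b ^ 2) - (a - b) * (a + b) := by ring
            rw [this]; exact dvd_sub h3 (Dvd.dvd.mul_right h8 _)
          rcases hq.dvd_or_dvd h9 with h10 | h10
          · exact par2 q hq h10 h3
          · have h11 := hq.dvd_of_dvd_pow h10
            have h12 : q ∣ a := by
              have : a = (a - b) + b := by ring
              rw [this]; exact dvd_add h8 h11
            exact key q hq ⟨h12, h11⟩
  have c3 : IsCoprime (a ^ 2 - b ^ 2) (a ^ 2 + 2 * a * b - b ^ 2) := by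
    apply isCoprime_of_prime_dvd
    · rintro ⟨h3, -⟩
      exact h2 (by linarith)
    · intro q hq h3 h4
      have h5 : q ∣ 2 * (a * b) := by
        have : 2 * (a * b) = (a ^ 2 + 2 * a * b - b ^ 2) - (a ^ 2 - b ^ 2) := by ring
        rw [this]; exact dvd_sub h4 h3
      rcases hq.dvd_or_dvd h5 with h7 | h7
      · have h8 : q ∣ a ^ 2 + b ^ 2 := by
          have : a ^ 2 + b ^ 2 = (a ^ 2 - b ^ 2) + 2 * b ^ 2 := by ring
          rw [this]; exact dvd_add h3 (Dvd.dvd.mul_right h7 _)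
        exact par2 q hq h7 h8
      · rcases hq.dvd_or_dvd h7 with h8 | h8
        · have h9 : q ∣ b ^ 2 := by
            have : b ^ 2 = a * a - (a ^ 2 - b ^ 2) := by ring
            rw [this]; exact dvd_sub (Dvd.dvd.mul_right h8 _) h3
          exact key q hq ⟨h8, hq.dvd_of_dvd_pow h9⟩
        · have h9 : q ∣ a ^ 2 := by
            have : a ^ 2 = (a ^ 2 - b ^ 2) + b * b := by ring
            rw [this]; exact dvd_add h3 (Dvd.dvd.mul_right h8 _)
          exact key q hq ⟨hq.dvd_of_dvd_pow h9, h8⟩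
  obtain ⟨u, hu⟩ := cop_mul_sq (c1.mul_right c2) (c := Y) (by rw [← h]; ring)
  obtain ⟨v, hv⟩ := cop_mul_sq (c1.symm.mul_right c3) (c := Y) (by rw [← h]; ring)
  have hA : 0 < a ^ 2 + b ^ 2 := by positivity
  have hu' : a ^ 2 + b ^ 2 = u ^ 2 := by
    rcases hu with hu | hu
    · exact hu
    · nlinarith [sq_nonneg u]
  have hu0 : u ≠ 0 := by
    rintro rfl
    nlinarith
  have hv0 : v ≠ 0 := by
    rintro rfl
    apply h2
    rcases hv with hv | hv <;> linarith
  rcases hv with hv | hv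
  · have h3 : a ^ 4 - b ^ 4 = (u * v) ^ 2 := by
      have : a ^ 4 - b ^ 4 = (a ^ 2 + b ^ 2) * (a ^ 2 - b ^ 2) := by ring
      rw [this, hu', hv]; ring
    rcases cub_fermat_sub a b (u * v) h3 with h4 | h4
    · exact hb h4
    · exact (mul_ne_zero hu0 hv0) h4
  · have h3 : b ^ 4 - a ^ 4 = (u * v) ^ 2 := by
      have : b ^ 4 - a ^ 4 = -((a ^ 2 + b ^ 2) * (a ^ 2 - b ^ 2)) := by ring
      rw [this, hu', hv]; ring
    rcases cub_fermat_sub b a (u * v) h3 with h4 | h4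
    · exact ha h4
    · exact (mul_ne_zero hu0 hv0) h4

/-- the case of two odd numbers `m + k`, `m - k` -/
theorem four_even {m k Y : ℤ} (hmk : IsCoprime m k) (hpar : (m + k) % 2 = 1) (hm : m ≠ 0)
    (hk : k ≠ 0) (h : (m ^ 2 + k ^ 2) * (m * k) * (m ^ 2 + 2 * m * k - k ^ 2) = Y ^ 2) : False := by
  have hodd : ¬ (2 : ℤ) ∣ m + k := by omega
  have key : ∀ q : ℤ, Prime q → ¬ (q ∣ m ∧ q ∣ k) := by
    intro q hq ⟨h3, h4⟩
    exact hq.not_isUnit (hmk.isUnit_of_dvd' h3 h4)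
  have par2 : ∀ q : ℤ, Prime q → q ∣ 2 → ¬ q ∣ m ^ 2 + k ^ 2 := by
    intro q hq hq2 hq3
    have h5 : (2 : ℤ) ∣ q := by
      rcases (Int.prime_two.irreducible.dvd_iff).mp hq2 with h | h
      · exact absurd h hq.not_isUnit
      · exact (Associated.dvd h)
    have h6 : (2 : ℤ) ∣ m ^ 2 + k ^ 2 := h5.trans hq3
    have h7 : (2 : ℤ) ∣ (m + k) ^ 2 := by
      have : (m + k) ^ 2 = (m ^ 2 + k ^ 2) + 2 * (m * k) := by ring
      rw [this]
      exact dvd_add h6 ⟨_, rfl⟩
    exact hodd (Int.prime_two.dvd_of_dvd_pow h7)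
  have c1 : IsCoprime (m ^ 2 + k ^ 2) (m * k) := by
    apply isCoprime_of_prime_dvd
    · rintro ⟨-, h4⟩
      exact (mul_ne_zero hm hk) h4
    · intro q hq h3 h4
      rcases hq.dvd_or_dvd h4 with h8 | h8
      · have h9 : q ∣ k ^ 2 := by
          have : k ^ 2 = (m ^ 2 + k ^ 2) - m * m := by ring
          rw [this]; exact dvd_sub h3 (Dvd.dvd.mul_right h8 _)
        exact key q hq ⟨h8, hq.dvd_of_dvd_pow h9⟩
      · have h9 : q ∣ m ^ 2 := by
          have : m ^ 2 = (m ^ 2 + k ^ 2) - k * k := by ring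
          rw [this]; exact dvd_sub h3 (Dvd.dvd.mul_right h8 _)
        exact key q hq ⟨hq.dvd_of_dvd_pow h9, h8⟩
  have c2 : IsCoprime (m ^ 2 + k ^ 2) (m ^ 2 + 2 * m * k - k ^ 2) := by
    apply isCoprime_of_prime_dvd
    · rintro ⟨h3, -⟩
      have : m ^ 2 = 0 := by nlinarith [sq_nonneg m, sq_nonneg k]
      exact hm (pow_eq_zero_iff (two_ne_zero) |>.mp this)
    · intro q hq h3 h4
      have h5 : q ∣ 2 * (k * (m - k)) := by
        have : 2 * (k * (m - k)) = (m ^ 2 + 2 * m * k - k ^ 2) - (m ^ 2 + k ^ 2) := by ring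
        rw [this]; exact dvd_sub h4 h3
      rcases hq.dvd_or_dvd h5 with h7 | h7
      · exact par2 q hq h7 h3
      · rcases hq.dvd_or_dvd h7 with h8 | h8
        · have h9 : q ∣ m ^ 2 := by
            have : m ^ 2 = (m ^ 2 + k ^ 2) - k * k := by ring
            rw [this]; exact dvd_sub h3 (Dvd.dvd.mul_right h8 _)
          exact key q hq ⟨hq.dvd_of_dvd_pow h9, h8⟩
        · have h9 : q ∣ 2 * k ^ 2 := by
            have : 2 * k ^ 2 = (m ^ 2 + k ^ 2) - (m - k) * (m + k) := by ring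
            rw [this]; exact dvd_sub h3 (Dvd.dvd.mul_right h8 _)
          rcases hq.dvd_or_dvd h9 with h10 | h10
          · exact par2 q hq h10 h3
          · have h11 := hq.dvd_of_dvd_pow h10
            have h12 : q ∣ m := by
              have : m = (m - k) + k := by ring
              rw [this]; exact dvd_add h8 h11
            exact key q hq ⟨h12, h11⟩
  have c3 : IsCoprime (m * k) (m ^ 2 + 2 * m * k - k ^ 2) := by
    apply isCoprime_of_prime_dvd
    · rintro ⟨h3, -⟩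
      exact (mul_ne_zero hm hk) h3
    · intro q hq h3 h4
      rcases hq.dvd_or_dvd h3 with h8 | h8
      · have h9 : q ∣ k ^ 2 := by
          have : k ^ 2 = m * (m + 2 * k) - (m ^ 2 + 2 * m * k - k ^ 2) := by ring
          rw [this]; exact dvd_sub (Dvd.dvd.mul_right h8 _) h4
        exact key q hq ⟨h8, hq.dvd_of_dvd_pow h9⟩
      · have h9 : q ∣ m ^ 2 := by
          have : m ^ 2 = (m ^ 2 + 2 * m * k - k ^ 2) - k * (2 * m - k) := by ring
          rw [this]; exact dvd_sub h4 (Dvd.dvd.mul_right h8 _)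
        exact key q hq ⟨hq.dvd_of_dvd_pow h9, h8⟩
  obtain ⟨u, hu⟩ := cop_mul_sq (c1.mul_right c2) (c := Y) (by rw [← h]; ring)
  obtain ⟨v, hv⟩ := cop_mul_sq (c1.symm.mul_right c3) (c := Y) (by rw [← h]; ring)
  have hA : 0 < m ^ 2 + k ^ 2 := by positivity
  have hu' : m ^ 2 + k ^ 2 = u ^ 2 := by
    rcases hu with hu | hu
    · exact hu
    · nlinarith [sq_nonneg u]
  have hsq : ∀ {s t : ℤ}, IsCoprime s t → (s * t = v ^ 2 ∨ s * t = -v ^ 2) →
      ∃ w : ℤ, s ^ 2 = w ^ 4 := by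
    intro s t hst hv
    rcases hv with hv | hv
    · obtain ⟨w, hw⟩ := cop_mul_sq hst hv
      exact ⟨w, by rcases hw with hw | hw <;> rw [hw] <;> ring⟩
    · obtain ⟨w, hw⟩ := cop_mul_sq (a := -s) (b := t) (c := v) (by
        exact hst.neg_left) (by rw [neg_mul, hv, neg_neg])
      refine ⟨w, ?_⟩
      have : s ^ 2 = (-s) ^ 2 := by ring
      rw [this]
      rcases hw with hw | hw <;> rw [hw] <;> ring
  obtain ⟨m1, hm1⟩ := hsq hmk hv
  obtain ⟨k1, hk1⟩ := hsq hmk.symm (by rw [mul_comm]; exact hv)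
  have hm10 : m1 ≠ 0 := by
    rintro rfl
    apply hm
    have : m ^ 2 = 0 := by rw [hm1]; ring
    exact pow_eq_zero_iff (two_ne_zero) |>.mp this
  have hk10 : k1 ≠ 0 := by
    rintro rfl
    apply hk
    have : k ^ 2 = 0 := by rw [hk1]; ring
    exact pow_eq_zero_iff (two_ne_zero) |>.mp this
  apply not_fermat_42 (c := u) hm10 hk10
  rw [← hm1, ← hk1]
  exact hu'

/-- **There is no rational four-cycle.** -/
theorem no_four {c : ℚ} {x : ℕ → ℚ} (hs : ∀ i, x (i + 1) = x i ^ 2 + c) (h4 : x 4 = x 0)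
    (h2 : x 2 ≠ x 0) : False := by
  have e0 := hs 0
  have e1 := hs 1
  have e2 := hs 2
  have e3 := hs 3
  simp only [Nat.zero_add, Nat.reduceAdd] at e0 e1 e2 e3
  rw [h4] at e3
  set d := x 0 - x 2 with hd
  set s := x 0 + x 2 with hsd
  set t := x 1 + x 3 with htd
  have hd0 : d ≠ 0 := sub_ne_zero.mpr (Ne.symm h2)
  have hst : s * t = -1 := by
    have h5 : x 1 - x 3 = d * s := by rw [e0, e2]; ring
    have h6 : -d = (x 1 - x 3) * t := by
      have : -d = x 2 - x 0 := by ring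
      rw [this]
      linear_combination e1 - e3
    rw [h5] at h6
    have h7 : d * (s * t + 1) = 0 := by linear_combination (-1 : ℚ) * h6
    have := (mul_eq_zero.mp h7).resolve_left hd0
    linarith
  have hs0 : s ≠ 0 := by
    intro h
    rw [h, zero_mul] at hst
    norm_num at hst
  -- the genus two curve
  have hcurve : d ^ 2 * s ^ 2 * (s ^ 2 - 1) = (s ^ 2 + 1) * (s ^ 2 + 2 * s - 1) := by
    have h5 : x 1 - x 3 = d * s := by rw [e0, e2]; ring
    have h8 : 2 * t = s ^ 2 + d ^ 2 + 4 * c := by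
      rw [htd, hsd, hd]
      linear_combination 2 * e0 + 2 * e2
    have h9 : 2 * s = t ^ 2 + (d * s) ^ 2 + 4 * c := by
      rw [← h5, htd, hsd]
      linear_combination 2 * e1 + 2 * e3
    have h10 : 2 * (t - s) = s ^ 2 + d ^ 2 - t ^ 2 - (d * s) ^ 2 := by linear_combination h8 - h9
    -- multiply with `s ^ 2`
    have h11 : (2 * (t - s) - (s ^ 2 + d ^ 2 - t ^ 2 - (d * s) ^ 2)) * s ^ 2 = 0 := by
      rw [h10]; ring
    linear_combination h11 + (-2 * s - s * t + 1) * hst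
  have hs1 : s ^ 2 ≠ 1 := by
    intro h
    rw [h] at hcurve
    have h5 : s = 0 := by linarith
    exact hs0 h5
  -- integers
  have hint : ∃ (a b Y : ℤ), IsCoprime a b ∧ a ≠ 0 ∧ b ≠ 0 ∧ a ^ 2 ≠ b ^ 2 ∧
      (a ^ 2 + b ^ 2) * (a ^ 2 - b ^ 2) * (a ^ 2 + 2 * a * b - b ^ 2) = Y ^ 2 := by
    have hb0 : (s.den : ℚ) ≠ 0 := by exact_mod_cast s.den_ne_zero
    have hsab : s = s.num / s.den := (Rat.num_div_den s).symm
    have hab : (s.num : ℚ) = s * s.den := by
      rw [eq_comm]; exact Rat.mul_den_eq_num s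
    have hsqr : IsSquare (((s.num ^ 2 + (s.den : ℤ) ^ 2) * (s.num ^ 2 - (s.den : ℤ) ^ 2) *
        (s.num ^ 2 + 2 * s.num * s.den - (s.den : ℤ) ^ 2) : ℤ) : ℚ) := by
      refine ⟨d * s * (s ^ 2 - 1) * (s.den : ℚ) ^ 3, ?_⟩
      push_cast
      rw [hab]
      linear_combination (-(s ^ 2 - 1) * (s.den : ℚ) ^ 6) * hcurve
    rw [Rat.isSquare_intCast_iff] at hsqr
    obtain ⟨Y, hY⟩ := hsqr
    refine ⟨s.num, s.den, Y, ?_, ?_, ?_, ?_, ?_⟩
    · rw [Int.isCoprime_iff_gcd_eq_one]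
      exact s.reduced
    · intro h
      exact hs0 (Rat.num_eq_zero.mp h)
    · exact_mod_cast s.den_ne_zero
    · intro h
      apply hs1
      have h5 : ((s.num : ℚ)) ^ 2 = (s.den : ℚ) ^ 2 := by exact_mod_cast h
      rw [hab, mul_pow] at h5
      have h6 : (s.den : ℚ) ^ 2 ≠ 0 := pow_ne_zero 2 hb0
      have h7 : (s.den : ℚ) ^ 2 * (s ^ 2 - 1) = 0 := by linear_combination h5
      have := (mul_eq_zero.mp h7).resolve_left h6
      linarith
    · rw [hY]; ring
  obtain ⟨a, b, Y, hab, ha, hb, hne, hY⟩ := hint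
  by_cases hpar : (a + b) % 2 = 1
  · exact four_odd hab hpar ha hb hne hY
  · -- both are odd
    have h5 : ¬ (a % 2 = 0 ∧ b % 2 = 0) := by
      rintro ⟨h6, h7⟩
      have h8 : (2 : ℤ) ∣ a := by omega
      have h9 : (2 : ℤ) ∣ b := by omega
      exact Int.prime_two.not_isUnit (hab.isUnit_of_dvd' h8 h9)
    obtain ⟨m, hm⟩ : ∃ m, a + b = 2 * m := ⟨(a + b) / 2, by omega⟩
    obtain ⟨k, hk⟩ : ∃ k, a - b = 2 * k := ⟨(a - b) / 2, by omega⟩
    have ea : a = m + k := by linarith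
    have eb : b = m - k := by linarith
    have hcop : IsCoprime m k := by
      obtain ⟨u, v, huv⟩ := hab
      refine ⟨u + v, u - v, ?_⟩
      rw [← huv, ea, eb]; ring
    have hYd : ∃ Y', Y = 4 * Y' := by
      have h6 : (4 : ℤ) ^ 2 ∣ Y ^ 2 := by
        rw [← hY, ea, eb]
        exact ⟨(m ^ 2 + k ^ 2) * (m * k) * (m ^ 2 + 2 * m * k - k ^ 2), by ring⟩
      exact (Int.pow_dvd_pow_iff (two_ne_zero)).mp h6
    obtain ⟨Y', rfl⟩ := hYd
    apply four_even (m := m) (k := k) (Y := Y') hcop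
    · have : a % 2 = 1 := by omega
      omega
    · rintro rfl
      apply hne
      rw [ea, eb]; ring
    · rintro rfl
      apply hne
      rw [ea, eb]; ring
    · rw [ea, eb] at hY
      have h6 : (16 : ℤ) * ((m ^ 2 + k ^ 2) * (m * k) * (m ^ 2 + 2 * m * k - k ^ 2)) =
        16 * Y' ^ 2 := by linear_combination hY
      linarith

end Pool.Agent.W2helper83.FP
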