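import Mathlib
import Pool.Agent.W2helper83.FP.Four
import Pool.Agent.W2helper83.FP.C6x17
import Pool.Agent.W2helper83.FP.C6x29
import Pool.Agent.W2helper83.FP.C6x41
import Pool.Agent.W2helper83.FP.C5x89
import Pool.Agent.W2helper83.FP.C5x97

/-!
Rational cycles of `x ^ 2 + c` have length at most three, if the denominator of `c` has at most five
prime factors, or if it is divisible neither by `30` nor by `201894`.
-/

set_option autoImplicit false

namespace Pool.Agent.W2helper83.FP

open Finset

variable {c : ℚ} {x : ℕ → ℚ} {n : ℕ}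

/-- the possible lengths with good reduction at a small prime -/
def NN : List (ℕ × List ℕ) :=
  [(2, [1, 2]), (3, [1, 2, 3]), (5, [1, 2, 3, 4, 8]), (7, [1, 2, 3, 4, 6]),
   (11, [1, 2, 3, 4, 5, 6, 10, 15, 20]), (13, [1, 2, 3, 4, 5, 6, 8, 12, 24, 36]),
   (17, [1, 2, 3, 4, 5, 6, 8, 16, 24, 32, 48, 64, 80, 96]),
   (19, [1, 2, 3, 4, 5, 6, 7, 9, 12, 18, 36, 54, 72, 108]),
   (23, [1, 2, 3, 4, 5, 6, 10, 11, 22, 33, 44, 55, 66, 110])]

theorem Cy.dvd_of (C : Cy c x n) {p : ℕ} (hp : p.Prime) {N : List ℕ} (hN : chk p N = true)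
    (h : n ∉ N) : p ∣ c.den := by
  by_contra h1
  exact h (C.good hp h1 N hN)

theorem Cy.dvd_of_mem (C : Cy c x n) : ∀ a ∈ NN, n ∉ a.2 → a.1 ∣ c.den ∧ a.1.Prime := by
  intro a ha hna
  simp only [NN, List.mem_cons, List.not_mem_nil, or_false] at ha
  rcases ha with rfl | rfl | rfl | rfl | rfl | rfl | rfl | rfl | rfl
  · exact ⟨C.dvd_of (by norm_num) chk2 hna, by norm_num⟩
  · exact ⟨C.dvd_of (by norm_num) chk3 hna, by norm_num⟩
  · exact ⟨C.dvd_of (by norm_num) chk5 hna, by norm_num⟩
  · exact ⟨C.dvd_of (by norm_num) chk7 hna, by norm_num⟩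
  · exact ⟨C.dvd_of (by norm_num) chk11 hna, by norm_num⟩
  · exact ⟨C.dvd_of (by norm_num) chk13 hna, by norm_num⟩
  · exact ⟨C.dvd_of (by norm_num) chk17 hna, by norm_num⟩
  · exact ⟨C.dvd_of (by norm_num) chk19 hna, by norm_num⟩
  · exact ⟨C.dvd_of (by norm_num) chk23 hna, by norm_num⟩

theorem card_le {D : ℕ} (hD : D ≠ 0) (s : Finset ℕ) (hs : ∀ p ∈ s, p ∣ D ∧ p.Prime) :
    s.card ≤ D.primeFactors.card := by
  apply Finset.card_le_card
  intro p hp
  exact Nat.mem_primeFactors.mpr ⟨(hs p hp).2, (hs p hp).1, hD⟩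

theorem Cy.ne_four (C : Cy c x n) : n ≠ 4 := by
  rintro rfl
  apply no_four C.step
  · exact (C.inj 4 0).mpr (by simp [Nat.ModEq])
  · intro h
    have := (C.inj 2 0).mp h
    simp [Nat.ModEq] at this

/-- the case of a denominator which is not divisible by `30` -/
theorem Cy.dvd_cases (C : Cy c x n) (hn : 4 ≤ n) : 30 ∣ c.den ∨ 201894 ∣ c.den := by
  have hn4 := C.ne_four
  have h2 : 2 ∣ c.den := C.dvd_of (by norm_num) chk2 (by simp; omega)
  have h3 : 3 ∣ c.den := C.dvd_of (by norm_num) chk3 (by simp; omega)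
  by_cases h8 : n = 8
  · right
    subst h8
    have h7 : 7 ∣ c.den := C.dvd_of (by norm_num) chk7 (by simp)
    have h11 : 11 ∣ c.den := C.dvd_of (by norm_num) chk11 (by simp)
    have h19 : 19 ∣ c.den := C.dvd_of (by norm_num) chk19 (by simp)
    have h23 : 23 ∣ c.den := C.dvd_of (by norm_num) chk23 (by simp)
    have a1 : 2 * 3 ∣ c.den := Nat.Coprime.mul_dvd_of_dvd_of_dvd (by norm_num) h2 h3
    have a2 : 2 * 3 * 7 ∣ c.den := Nat.Coprime.mul_dvd_of_dvd_of_dvd (by norm_num) a1 h7
    have a3 : 2 * 3 * 7 * 11 ∣ c.den := Nat.Coprime.mul_dvd_of_dvd_of_dvd (by norm_num) a2 h11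
    have a4 : 2 * 3 * 7 * 11 * 19 ∣ c.den := Nat.Coprime.mul_dvd_of_dvd_of_dvd (by norm_num) a3 h19
    have a5 : 2 * 3 * 7 * 11 * 19 * 23 ∣ c.den :=
      Nat.Coprime.mul_dvd_of_dvd_of_dvd (by norm_num) a4 h23
    exact a5
  · left
    have h5 : 5 ∣ c.den := C.dvd_of (by norm_num) chk5 (by simp; omega)
    have a1 : 2 * 3 ∣ c.den := Nat.Coprime.mul_dvd_of_dvd_of_dvd (by norm_num) h2 h3
    have a2 : 2 * 3 * 5 ∣ c.den := Nat.Coprime.mul_dvd_of_dvd_of_dvd (by norm_num) a1 h5
    exact a2

theorem six_le_card_aux : ((List.range 111).all fun n => decide (n < 7) ||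
    decide (6 ≤ (NN.filter fun a => !a.2.contains n).length)) = true := by decide +kernel

theorem six_le_card (n : ℕ) (hn : 7 ≤ n) :
    6 ≤ (((NN.filter fun a => !a.2.contains n).map Prod.fst).toFinset).card := by
  have hnd : ((NN.filter fun a => !a.2.contains n).map Prod.fst).Nodup := by
    have h1 : (NN.map Prod.fst).Nodup := by decide
    exact h1.sublist ((List.filter_sublist (l := NN)).map Prod.fst)
  rw [List.toFinset_card_of_nodup hnd, List.length_map]
  by_cases h : n ≤ 110
  · have h1 := six_le_card_aux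
    rw [List.all_eq_true] at h1
    have h2 := h1 n (List.mem_range.mpr (by omega))
    rw [Bool.or_eq_true, decide_eq_true_eq, decide_eq_true_eq] at h2
    omega
  · have h1 : (NN.filter fun a => !a.2.contains n) = NN := by
      rw [List.filter_eq_self]
      have h2 : ∀ a ∈ NN, ∀ m ∈ a.2, m ≤ 110 := by decide
      intro a ha
      rw [Bool.not_eq_true', List.contains_eq_mem, decide_eq_false_iff_not]
      intro h3
      have := h2 a ha n h3
      omega
    rw [h1]
    decide

/-- the case of a denominator with at most five prime factors -/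
theorem Cy.card_lt (C : Cy c x n) (hn : 4 ≤ n) : 5 < c.den.primeFactors.card := by
  by_contra hcard
  push Not at hcard
  have hn4 := C.ne_four
  have h2 : 2 ∣ c.den := C.dvd_of (by norm_num) chk2 (by simp; omega)
  have h3 : 3 ∣ c.den := C.dvd_of (by norm_num) chk3 (by simp; omega)
  rcases (by omega : n = 5 ∨ n = 6 ∨ 7 ≤ n) with h | h | h
  · subst h
    have h5 : 5 ∣ c.den := C.dvd_of (by norm_num) chk5 (by simp)
    have h7 : 7 ∣ c.den := C.dvd_of (by norm_num) chk7 (by simp)
    by_cases h89 : 89 ∣ c.den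
    · by_cases h97 : 97 ∣ c.den
      · have := card_le c.den_ne_zero {2, 3, 5, 7, 89, 97} (by
          intro p hp
          simp only [Finset.mem_insert, Finset.mem_singleton] at hp
          rcases hp with rfl | rfl | rfl | rfl | rfl | rfl
          · exact ⟨h2, by norm_num⟩
          · exact ⟨h3, by norm_num⟩
          · exact ⟨h5, by norm_num⟩
          · exact ⟨h7, by norm_num⟩
          · exact ⟨h89, by norm_num⟩
          · exact ⟨h97, by norm_num⟩)
        have h8 : ({2, 3, 5, 7, 89, 97} : Finset ℕ).card = 6 := by decide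
        omega
      · exact C.excl (by norm_num) h97 hcard (by norm_num) (by norm_num) dat5 tab5 conf5x97 cert5x97
    · exact C.excl (by norm_num) h89 hcard (by norm_num) (by norm_num) dat5 tab5 conf5x89 cert5x89
  · subst h
    have h5 : 5 ∣ c.den := C.dvd_of (by norm_num) chk5 (by simp)
    by_cases h17 : 17 ∣ c.den
    · by_cases h29 : 29 ∣ c.den
      · by_cases h41 : 41 ∣ c.den
        · have := card_le c.den_ne_zero {2, 3, 5, 17, 29, 41} (by
            intro p hp
            simp only [Finset.mem_insert, Finset.mem_singleton] at hp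
            rcases hp with rfl | rfl | rfl | rfl | rfl | rfl
            · exact ⟨h2, by norm_num⟩
            · exact ⟨h3, by norm_num⟩
            · exact ⟨h5, by norm_num⟩
            · exact ⟨h17, by norm_num⟩
            · exact ⟨h29, by norm_num⟩
            · exact ⟨h41, by norm_num⟩)
          have h8 : ({2, 3, 5, 17, 29, 41} : Finset ℕ).card = 6 := by decide
          omega
        · exact C.excl (by norm_num) h41 hcard (by norm_num) (by norm_num) dat6 tab6 conf6x41 cert6x41
      · exact C.excl (by norm_num) h29 hcard (by norm_num) (by norm_num) dat6 tab6 conf6x29 cert6x29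
    · exact C.excl (by norm_num) h17 hcard (by norm_num) (by norm_num) dat6 tab6 conf6x17 cert6x17
  · have h1 := six_le_card n h
    have h4 := card_le c.den_ne_zero ((NN.filter fun a => !a.2.contains n).map Prod.fst).toFinset (by
      intro p hp
      rw [List.mem_toFinset, List.mem_map] at hp
      obtain ⟨a, ha, rfl⟩ := hp
      rw [List.mem_filter, Bool.not_eq_true', List.contains_eq_mem,
        decide_eq_false_iff_not] at ha
      exact C.dvd_of_mem a ha.1 ha.2)
    omega

end Pool.Agent.W2helper83.FP
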